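import Pool.Agent.HexWall.SlitTube
import Pool.Agent.HexTube.Final
import Pool.Agent.PHW.Num1

/-!
Flat bridges: averaging over the levels of each scale.
-/

set_option autoImplicit false

namespace HexObs

open Complex Finset ENNReal

namespace Wall

/-- number of the layers of the scale k which are visited at lateral position at most w -/
noncomputable def nvis (t : List Bool) (k : ℕ) (w : ℤ) : ℕ := by
  classical exact ((Finset.Ioc (2 ^ (k - 1)) (2 ^ k)).filter (fun y => ¬ Clr t y w)).card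

/-- the word is flat at the scale k: fewer than 2 ^ k / N of the layers of the scale are visited at
lateral position at most A 2 ^ k -/
def Flat (N A : ℕ) (t : List Bool) (k : ℕ) : Prop := N * nvis t k (A * 2 ^ k) < 2 ^ k

lemma gf_eq_tsum (P : Set (List Bool)) : gf P = ∑' t : List Bool, P.indicator wE t := by
  unfold gf
  exact tsum_subtype P wE

/-- averaging -/
lemma avg {S S' : Set (List Bool)} (hSS : S ⊆ S') (H : Finset ℕ) (Y : ℕ → Finset ℕ) (c : ℕ → ℕ)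
    (R : List Bool → ℕ → ℕ → Prop) (b : ℝ≥0∞)
    (hS : ∀ t ∈ S, ∀ k ∈ H, ∃ Z ⊆ Y k, c k ≤ Z.card ∧ ∀ y ∈ Z, R t k y)
    (hb : ∀ y : ∀ k ∈ H, ℕ, (∀ k hk, y k hk ∈ Y k) → gf {t | t ∈ S' ∧ ∀ k hk, R t k (y k hk)} ≤ b) :
    ((∏ k ∈ H, c k : ℕ) : ℝ≥0∞) * gf S ≤ ((∏ k ∈ H, (Y k).card : ℕ) : ℝ≥0∞) * b := by
  classical
  have h1 : ((∏ k ∈ H, c k : ℕ) : ℝ≥0∞) * gf S ≤
      ∑ y ∈ H.pi Y, gf {t | t ∈ S' ∧ ∀ k hk, R t k (y k hk)} := by
    have e1 : ∑ y ∈ H.pi Y, gf {t | t ∈ S' ∧ ∀ k hk, R t k (y k hk)} =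
        ∑' t : List Bool, ∑ y ∈ H.pi Y, {t | t ∈ S' ∧ ∀ k hk, R t k (y k hk)}.indicator wE t := by
      rw [Summable.tsum_finsetSum (fun _ _ => ENNReal.summable)]
      apply Finset.sum_congr rfl
      intro y _
      exact gf_eq_tsum _
    rw [e1, gf_eq_tsum, ← ENNReal.tsum_mul_left]
    apply ENNReal.tsum_le_tsum
    intro t
    by_cases ht : t ∈ S
    · rw [Set.indicator_of_mem ht]
      choose Z hZ1 hZ2 hZ3 using hS t ht
      have hsub : H.pi (fun k => if hk : k ∈ H then Z k hk else ∅) ⊆ H.pi Y := by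
        intro y hy
        rw [Finset.mem_pi] at hy ⊢
        intro k hk
        have := hy k hk
        rw [dif_pos hk] at this
        exact hZ1 k hk this
      have e2 : ∑ y ∈ H.pi (fun k => if hk : k ∈ H then Z k hk else ∅),
          {t | t ∈ S' ∧ ∀ k hk, R t k (y k hk)}.indicator wE t =
          ((H.pi (fun k => if hk : k ∈ H then Z k hk else ∅)).card : ℝ≥0∞) * wE t := by
        rw [← nsmul_eq_mul, ← Finset.sum_const]
        apply Finset.sum_congr rfl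
        intro y hy
        apply Set.indicator_of_mem
        refine ⟨hSS ht, fun k hk => ?_⟩
        have := (Finset.mem_pi.1 hy) k hk
        rw [dif_pos hk] at this
        exact hZ3 k hk _ this
      refine le_trans ?_ (Finset.sum_le_sum_of_subset hsub)
      rw [e2]
      gcongr
      rw [Finset.card_pi]
      apply Finset.prod_le_prod (fun _ _ => Nat.zero_le _)
      intro k hk
      rw [dif_pos hk]
      exact hZ2 k hk
    · rw [Set.indicator_of_notMem ht, mul_zero]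
      exact zero_le
  refine h1.trans ?_
  rw [← Finset.card_pi, ← nsmul_eq_mul]
  apply Finset.sum_le_card_nsmul
  intro y hy
  exact hb y (fun k hk => Finset.mem_pi.1 hy k hk)

lemma clr_many {t : List Bool} {k A : ℕ} (hk : 1 ≤ k) (h : Flat 4 A t k) :
    ∃ Z ⊆ Finset.Ioc (2 ^ (k - 1)) (2 ^ k), 2 ^ k ≤ 4 * Z.card ∧ ∀ y ∈ Z, Clr t y (A * 2 ^ k) := by
  classical
  refine ⟨(Finset.Ioc (2 ^ (k - 1)) (2 ^ k)).filter (fun y => Clr t y (A * 2 ^ k)), Finset.filter_subset _ _, ?_,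
    fun y hy => (Finset.mem_filter.1 hy).2⟩
  have h1 := Finset.card_filter_add_card_filter_not (s := Finset.Ioc (2 ^ (k - 1)) (2 ^ k))
    (fun y => Clr t y (A * 2 ^ k))
  have h2 : 4 * ((Finset.Ioc (2 ^ (k - 1)) (2 ^ k)).filter (fun y => ¬ Clr t y (A * 2 ^ k))).card < 2 ^ k := by
    unfold Flat nvis at h
    exact h
  rw [Nat.card_Ioc] at h1
  obtain ⟨j, rfl⟩ : ∃ j, k = j + 1 := ⟨k - 1, by omega⟩
  rw [Nat.add_sub_cancel] at h1 ⊢
  rw [Nat.add_sub_cancel] at h2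
  have e : 2 ^ (j + 1) = 2 * 2 ^ j := by rw [pow_succ]; ring
  omega

lemma sc_base {r K : ℕ} (hr : 1 ≤ r) (hK : 1 ≤ K) : sc r (K * r) ≤ ENNReal.ofReal (6000 * uu r) := by
  have h1 := Tube.lat1 r K hr hK
  have h2 : (2 - Real.sqrt 2) ^ K ≤ 1 := by
    apply pow_le_one₀
    · have : Real.sqrt 2 ≤ 2 := by
        rw [Real.sqrt_le_left (by norm_num)]
        norm_num
      linarith
    · have : (1 : ℝ) ≤ Real.sqrt 2 := by
        rw [Real.one_le_sqrt]
        norm_num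
      linarith
  have h3 : (sc r (K * r)).toReal ≤ 6000 * uu r := by
    have h4 : uu r = bT r := rfl
    have h5 := bT_nonneg r
    rw [h4]
    refine h1.trans ?_
    nlinarith
  have hne := Tube.sc_top (T := r) (r := K * r) hr (Nat.mul_pos hK hr)
  rw [← ENNReal.ofReal_toReal hne]
  exact ENNReal.ofReal_le_ofReal h3

/-- Theorem A: one half row per scale -/
theorem slit_bound {T : ℕ} (H : Finset ℕ) (y : ℕ → ℕ) {K k0 : ℕ} (hK : 1 ≤ K)
    (hk0 : k0 ∈ H) (hmin : ∀ k ∈ H, k0 ≤ k) (h1 : 1 ≤ k0) (hy : ∀ k ∈ H, 2 ^ (k - 1) < y k ∧ y k ≤ 2 ^ k)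
    (hT : ∀ k ∈ H, y k ≤ T) :
    gf {t | t ∈ Brd T ∧ ∀ k ∈ H, Clr t (y k) (6 * K * 2 ^ k)} ≤
      ENNReal.ofReal ((3 / 5) ^ (K * H.card) * (6000 * uu (2 ^ (k0 - 1)))) := by
  refine (slit_tube H y hK hk0 hmin h1 hy hT).trans ?_
  have a1 := hy k0 hk0
  have a2 : 1 ≤ 2 ^ (k0 - 1) := Nat.one_le_two_pow
  rw [ENNReal.ofReal_mul (by positivity)]
  gcongr
  refine (sc_base (by omega) hK).trans (ENNReal.ofReal_le_ofReal ?_)
  have := uu_anti (show 2 ^ (k0 - 1) ≤ y k0 - 1 by omega)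
  linarith

/-- Theorem B: flat bridges -/
theorem flat_bridges {T : ℕ} (H : Finset ℕ) {K k0 : ℕ} (hK : 1 ≤ K)
    (hk0 : k0 ∈ H) (hmin : ∀ k ∈ H, k0 ≤ k) (h1 : 1 ≤ k0) (hT : ∀ k ∈ H, 2 ^ k ≤ T) :
    gf {t | t ∈ Brd T ∧ ∀ k ∈ H, Flat 4 (6 * K) t k} ≤
      ENNReal.ofReal ((2 * (3 / 5) ^ K) ^ H.card * (6000 * uu (2 ^ (k0 - 1)))) := by
  classical
  set b : ℝ≥0∞ := ENNReal.ofReal ((3 / 5) ^ (K * H.card) * (6000 * uu (2 ^ (k0 - 1)))) with hb
  have hk1 : ∀ k ∈ H, 1 ≤ k := fun k hk => h1.trans (hmin k hk)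
  have h := avg (S := {t | t ∈ Brd T ∧ ∀ k ∈ H, Flat 4 (6 * K) t k}) (S' := Brd T) (fun t ht => ht.1) H
    (fun k => Finset.Ioc (2 ^ (k - 1)) (2 ^ k)) (fun k => 2 ^ (k - 2)) (fun t k y => Clr t y (6 * K * 2 ^ k)) b
    ?_ ?_
  · set p : ℕ := ∏ k ∈ H, 2 ^ (k - 2) with hp
    have hp0 : 0 < p := Finset.prod_pos (fun k _ => by positivity)
    have hcard : ∏ k ∈ H, (Finset.Ioc (2 ^ (k - 1)) (2 ^ k)).card ≤ 2 ^ H.card * p := by
      rw [hp, ← Finset.prod_const, ← Finset.prod_mul_distrib]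
      apply Finset.prod_le_prod (fun _ _ => Nat.zero_le _)
      intro k hk
      have := hk1 k hk
      rw [Nat.card_Ioc]
      obtain ⟨j, rfl⟩ : ∃ j, k = j + 1 := ⟨k - 1, by omega⟩
      rw [Nat.add_sub_cancel]
      rcases Nat.eq_zero_or_pos j with hj | hj
      · rw [hj]
        norm_num
      · obtain ⟨i, rfl⟩ : ∃ i, j = i + 1 := ⟨j - 1, by omega⟩
        have e : i + 1 + 1 - 2 = i := by omega
        rw [e, pow_succ, pow_succ]
        omega
    have h2 : (p : ℝ≥0∞) * gf {t | t ∈ Brd T ∧ ∀ k ∈ H, Flat 4 (6 * K) t k} ≤ (p : ℝ≥0∞) * ((2 ^ H.card : ℕ) * b) := by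
      refine h.trans ?_
      rw [← mul_assoc]
      gcongr
      rw [← Nat.cast_mul, mul_comm p]
      exact_mod_cast hcard
    have h3 := (ENNReal.mul_le_mul_iff_right (by exact_mod_cast hp0.ne') (ENNReal.natCast_ne_top p)).1 h2
    refine h3.trans (le_of_eq ?_)
    rw [hb, ← ENNReal.ofReal_natCast, ← ENNReal.ofReal_mul (by positivity)]
    congr 1
    push_cast
    rw [mul_pow, pow_mul]
    ring
  · rintro t ⟨ht1, ht2⟩ k hk
    obtain ⟨Z, hZ1, hZ2, hZ3⟩ := clr_many (hk1 k hk) (ht2 k hk)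
    refine ⟨Z, hZ1, ?_, ?_⟩
    · have := hk1 k hk
      obtain ⟨j, rfl⟩ : ∃ j, k = j + 1 := ⟨k - 1, by omega⟩
      rcases Nat.eq_zero_or_pos j with hj | hj
      · rw [hj] at hZ2 ⊢
        norm_num at hZ2 ⊢
        by_contra hcon
        push Not at hcon
        rw [hcon] at hZ2
        simp at hZ2
      · obtain ⟨i, rfl⟩ : ∃ i, j = i + 1 := ⟨j - 1, by omega⟩
        have e : i + 1 + 1 - 2 = i := by omega
        rw [e]
        rw [pow_succ, pow_succ] at hZ2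
        omega
    · intro y hy
      have := hZ3 y hy
      push_cast at this
      exact this
  · intro y hy
    have h4 := slit_bound (T := T) H (fun k => if hk : k ∈ H then y k hk else 0) hK hk0 hmin h1 ?_ ?_
    · refine le_trans (gf_mono ?_) h4
      rintro t ⟨ht1, ht2⟩
      refine ⟨ht1, fun k hk => ?_⟩
      rw [dif_pos hk]
      exact ht2 k hk
    · intro k hk
      rw [dif_pos hk]
      exact Finset.mem_Ioc.1 (hy k hk)
    · intro k hk
      rw [dif_pos hk]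
      exact (Finset.mem_Ioc.1 (hy k hk)).2.trans (hT k hk)

end Wall

end HexObs
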