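import Pool.Agent.PHW.Mirror
import Pool.Agent.PHW.Rotate
import Pool.Agent.HexWall.FlatB

/-!
Mirror image and reversal of families of giants and bridges; layers of the reversed word.
-/

set_option autoImplicit false

namespace HexObs

open Complex Finset ENNReal

namespace Wall

lemma wE_not (t : List Bool) : wE (t.map not) = wE t := by
  unfold wE
  rw [List.length_map]

lemma wE_rev (t : List Bool) : wE (rev t) = wE t := by
  unfold wE
  rw [rev_length]

/-- families which are invariant under an involution that preserves the weights -/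
theorem gf_invol {F : Set (List Bool)} (φ : List Bool → List Bool) (h1 : ∀ t, φ (φ t) = t) (h2 : ∀ t, wE (φ t) = wE t)
    (h3 : ∀ t ∈ F, φ t ∈ F) (Q : List Bool → Prop) :
    gf {P | P ∈ F ∧ Q (φ P)} = gf {P | P ∈ F ∧ Q P} := by
  have hinj : Function.Injective φ := fun a b h => by
    have := congrArg φ h
    rwa [h1, h1] at this
  apply le_antisymm
  · have := gf_le_of_inj (P := {P | P ∈ F ∧ Q (φ P)}) (Q := {P | P ∈ F ∧ Q P}) φ
      (fun t ht => ⟨h3 t ht.1, ht.2⟩) hinj.injOn 1 (fun t _ => by rw [one_mul, h2])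
    rwa [one_mul] at this
  · have := gf_le_of_inj (P := {P | P ∈ F ∧ Q P}) (Q := {P | P ∈ F ∧ Q (φ P)}) φ
      (fun t ht => ⟨h3 t ht.1, by rw [h1]; exact ht.2⟩) hinj.injOn 1 (fun t _ => by rw [one_mul, h2])
    rwa [one_mul] at this

theorem gf_Irr_rev (r : ℕ) (Q : List Bool → Prop) :
    gf {P | P ∈ Irr r ∧ Q (rev P)} = gf {P | P ∈ Irr r ∧ Q P} :=
  gf_invol rev rev_rev wE_rev (fun _ h => Irr_rev h) Q

theorem gf_Irr_not (r : ℕ) (Q : List Bool → Prop) :
    gf {P | P ∈ Irr r ∧ Q (P.map not)} = gf {P | P ∈ Irr r ∧ Q P} :=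
  gf_invol (List.map not) map_not_not wE_not (fun _ h => Irr_not h) Q

theorem gf_Irr_not_rev (r : ℕ) (Q : List Bool → Prop) :
    gf {P | P ∈ Irr r ∧ Q ((rev P).map not)} = gf {P | P ∈ Irr r ∧ Q P} := by
  rw [gf_Irr_rev r (fun P => Q (P.map not))]
  exact gf_Irr_not r Q

theorem gf_Brd_rev (r : ℕ) (Q : List Bool → Prop) :
    gf {P | P ∈ Brd r ∧ Q (rev P)} = gf {P | P ∈ Brd r ∧ Q P} :=
  gf_invol rev rev_rev wE_rev (fun _ h => Brd_rev h) Q

theorem gf_Brd_not (r : ℕ) (Q : List Bool → Prop) :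
    gf {P | P ∈ Brd r ∧ Q (P.map not)} = gf {P | P ∈ Brd r ∧ Q P} :=
  gf_invol (List.map not) map_not_not wE_not (fun _ h => Brd_not h) Q

theorem gf_Brd_not_rev (r : ℕ) (Q : List Bool → Prop) :
    gf {P | P ∈ Brd r ∧ Q ((rev P).map not)} = gf {P | P ∈ Brd r ∧ Q P} := by
  rw [gf_Brd_rev r (fun P => Q (P.map not))]
  exact gf_Brd_not r Q

/-- the vertex number i lies in the layer y: levels 3 y - 1 and 3 y -/
def Ly (t : List Bool) (y : ℕ) (i : ℕ) : Prop := 1 ≤ i ∧ i ≤ t.length ∧ (lev t i = 3 * y - 1 ∨ lev t i = 3 * y)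

lemma Ly_not {t : List Bool} {y i : ℕ} : Ly (t.map not) y i ↔ Ly t y i := by
  unfold Ly
  rw [List.length_map]
  constructor
  · rintro ⟨h1, h2, h3⟩
    rw [lev_not t (by omega)] at h3
    exact ⟨h1, h2, h3⟩
  · rintro ⟨h1, h2, h3⟩
    refine ⟨h1, h2, ?_⟩
    rwa [lev_not t (by omega)]

lemma dx_end {T : ℕ} {t : List Bool} (h : t ∈ Brd T) : dx up t t.length = up := (mem_Brd.1 h).2.2.1

/-- the layer y of the reversed bridge is the layer T + 1 - y of the bridge -/
lemma Ly_rev {T : ℕ} {t : List Bool} (h : t ∈ Brd T) {y : ℕ} (hy : y ≤ T) {i : ℕ} :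
    Ly (rev t) y i ↔ 1 ≤ i ∧ i ≤ t.length ∧ Ly t (T + 1 - y) (t.length + 1 - i) := by
  unfold Ly
  rw [rev_length]
  constructor
  · rintro ⟨h1, h2, h3⟩
    rw [lev_rot (dx_end h) (by omega), lev_top h] at h3
    refine ⟨h1, h2, by omega, by omega, ?_⟩
    rcases h3 with h3 | h3
    · right
      have : ((T + 1 - y : ℕ) : ℤ) = T + 1 - y := by
        push_cast [Nat.cast_sub (show y ≤ T + 1 by omega)]
        ring
      rw [this]
      linarith
    · left
      have : ((T + 1 - y : ℕ) : ℤ) = T + 1 - y := by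
        push_cast [Nat.cast_sub (show y ≤ T + 1 by omega)]
        ring
      rw [this]
      linarith
  · rintro ⟨h1, h2, _, _, h3⟩
    have : ((T + 1 - y : ℕ) : ℤ) = T + 1 - y := by
      push_cast [Nat.cast_sub (show y ≤ T + 1 by omega)]
      ring
    rw [this] at h3
    rw [lev_rot (dx_end h) (by omega), lev_top h]
    refine ⟨h1, h2, ?_⟩
    rcases h3 with h3 | h3
    · right
      linarith
    · left
      linarith

lemma lat_top {T : ℕ} {t : List Bool} (h : t ∈ Brd T) : lat t (t.length + 1) = latE t := by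
  unfold latE lat
  have h1 : vx oo up t (t.length + 1) = vx oo up t t.length + dx up t t.length := rfl
  rw [h1, dx_end h]
  simp only [cross, up, Prod.fst_add, Prod.snd_add]
  ring

/-- horizontal coordinates of the reversed bridge -/
lemma lat_rev {T : ℕ} {t : List Bool} (h : t ∈ Brd T) {i : ℕ} (hi : i ≤ t.length + 1) :
    lat (rev t) i = latE t - lat t (t.length + 1 - i) := by
  rw [lat_rot (dx_end h) hi, lat_top h]

/-- visits of the mirror image -/
theorem clr_not {t : List Bool} {y : ℕ} {w : ℤ} : Clr (t.map not) y w ↔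
    ∀ i, i ≤ t.length → (lev t i = 3 * y - 1 ∨ lev t i = 3 * y) → lat t i < -w := by
  unfold Clr
  rw [List.length_map]
  constructor
  · intro h i hi hl
    have := h i hi (by rwa [lev_not t (by omega)])
    rw [lat_not t (by omega)] at this
    linarith
  · intro h i hi hl
    rw [lev_not t (by omega)] at hl
    rw [lat_not t (by omega)]
    have := h i hi hl
    linarith

/-- visits of the reversed bridge -/
theorem clr_rev {T : ℕ} {t : List Bool} (h : t ∈ Brd T) {y y' : ℕ} (hy : 1 ≤ y) (hyT : 1 ≤ y')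
    (hy' : y + y' = T + 1) {w : ℤ} :
    Clr (rev t) y w ↔
    ∀ i, i ≤ t.length → (lev t i = 3 * y' - 1 ∨ lev t i = 3 * y') → lat t i < latE t - w := by
  have e : (y : ℤ) + y' = T + 1 := by exact_mod_cast hy'
  unfold Clr
  rw [rev_length]
  constructor
  · intro hc i hi hl
    rcases Nat.eq_zero_or_pos i with h0 | h0
    · rw [h0, lev_zero] at hl
      omega
    · have h1 := hc (t.length + 1 - i) (by omega)
      rw [lev_rot (dx_end h) (by omega), lev_top h, lat_rev h (by omega)] at h1
      have e2 : t.length + 1 - (t.length + 1 - i) = i := by omega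
      rw [e2] at h1
      have h2 := h1 (by
        rcases hl with hl | hl
        · right
          linarith
        · left
          linarith)
      linarith
  · intro hc i hi hl
    rcases Nat.eq_zero_or_pos i with h0 | h0
    · rw [h0, lev_zero] at hl
      omega
    · rw [lev_rot (dx_end h) (by omega), lev_top h] at hl
      rw [lat_rev h (by omega)]
      have h1 := hc (t.length + 1 - i) (by omega) (by
        rcases hl with hl | hl
        · right
          linarith
        · left
          linarith)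
      linarith

/-- visits of the rotated and mirrored bridge -/
theorem clr_rev_not {T : ℕ} {t : List Bool} (h : t ∈ Brd T) {y y' : ℕ} (hy : 1 ≤ y) (hyT : 1 ≤ y')
    (hy' : y + y' = T + 1) {w : ℤ} :
    Clr ((rev t).map not) y w ↔
    ∀ i, i ≤ t.length → (lev t i = 3 * y' - 1 ∨ lev t i = 3 * y') → latE t + w < lat t i := by
  have e : rev (t.map not) = (rev t).map not := by
    unfold rev
    rw [List.map_reverse]
  rw [← e, clr_rev (Brd_not h) hy hyT hy', List.length_map, latE_not]
  constructor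
  · intro hc i hi hl
    have := hc i hi (by rwa [lev_not t (by omega)])
    rw [lat_not t (by omega)] at this
    linarith
  · intro hc i hi hl
    rw [lev_not t (by omega)] at hl
    rw [lat_not t (by omega)]
    have := hc i hi hl
    linarith

/-- number of the visited layers of the mirror image -/
theorem nvis_not {t : List Bool} {k : ℕ} {w : ℤ} : nvis (t.map not) k w =
    {y : ℕ | (2 ^ (k - 1) < y ∧ y ≤ 2 ^ k) ∧ ∃ i, i ≤ t.length ∧ (lev t i = 3 * (y : ℤ) - 1 ∨ lev t i = 3 * (y : ℤ)) ∧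
      -w ≤ lat t i}.ncard := by
  classical
  unfold nvis
  rw [← Set.ncard_coe_finset]
  congr 1
  ext y
  simp only [Finset.coe_filter, Finset.mem_Ioc, Set.mem_ofPred_eq]
  rw [clr_not]
  push Not
  exact Iff.rfl

/-- number of the visited layers of the reversed bridge -/
theorem nvis_rev {T : ℕ} {t : List Bool} (h : t ∈ Brd T) {k : ℕ} (hk : 2 ^ k ≤ T) {w : ℤ} : nvis (rev t) k w =
    {y : ℕ | (2 ^ (k - 1) < y ∧ y ≤ 2 ^ k) ∧ ∃ i, i ≤ t.length ∧
      (lev t i = 3 * ((T : ℤ) + 1 - y) - 1 ∨ lev t i = 3 * ((T : ℤ) + 1 - y)) ∧ latE t - w ≤ lat t i}.ncard := by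
  classical
  unfold nvis
  rw [← Set.ncard_coe_finset]
  congr 1
  ext y
  simp only [Finset.coe_filter, Finset.mem_Ioc, Set.mem_ofPred_eq]
  apply and_congr_right
  rintro ⟨h1, h2⟩
  have e : ((T + 1 - y : ℕ) : ℤ) = T + 1 - y := by
    push_cast [Nat.cast_sub (show y ≤ T + 1 by omega)]
    ring
  rw [clr_rev h (show 1 ≤ y by have := Nat.one_le_two_pow (n := k - 1); omega) (show 1 ≤ T + 1 - y by omega) (show y + (T + 1 - y) = T + 1 by omega), e]
  push Not
  rfl

/-- number of the visited layers of the rotated and mirrored bridge -/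
theorem nvis_rev_not {T : ℕ} {t : List Bool} (h : t ∈ Brd T) {k : ℕ} (hk : 2 ^ k ≤ T) {w : ℤ} :
    nvis ((rev t).map not) k w =
    {y : ℕ | (2 ^ (k - 1) < y ∧ y ≤ 2 ^ k) ∧ ∃ i, i ≤ t.length ∧
      (lev t i = 3 * ((T : ℤ) + 1 - y) - 1 ∨ lev t i = 3 * ((T : ℤ) + 1 - y)) ∧ lat t i ≤ latE t + w}.ncard := by
  classical
  unfold nvis
  rw [← Set.ncard_coe_finset]
  congr 1
  ext y
  simp only [Finset.coe_filter, Finset.mem_Ioc, Set.mem_ofPred_eq]
  apply and_congr_right
  rintro ⟨h1, h2⟩
  have e : ((T + 1 - y : ℕ) : ℤ) = T + 1 - y := by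
    push_cast [Nat.cast_sub (show y ≤ T + 1 by omega)]
    ring
  rw [clr_rev_not h (show 1 ≤ y by have := Nat.one_le_two_pow (n := k - 1); omega) (show 1 ≤ T + 1 - y by omega) (show y + (T + 1 - y) = T + 1 by omega), e]
  push Not
  rfl

end Wall

end HexObs
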