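import Pool.Agent.HexWall.FlatE
import Pool.Agent.PHW.Num3

/-!
Theorem D with dyadic heights.
-/

set_option autoImplicit false

namespace HexObs

open Complex Finset ENNReal

namespace Wall

lemma UU_pred {n : ℕ} : UU (n + 1) ≤ 2 * UU n := by
  have h1 := Num2Aux.UU_succ n
  have h2 := uu_le_one (n + 1)
  have h3 := Num2Aux.UU_mono (show 0 ≤ n by omega)
  have h4 : UU 0 = 1 := by
    unfold UU
    rw [Finset.sum_range_one, uu_zero]
  linarith

/-- the trivial bound for all giants of height at least n + 1 -/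
theorem tail_triv (n N : ℕ) : ∑ r ∈ Finset.Ico (n + 1) N, gf (Irr r) ≤ ENNReal.ofReal (1 / UU n) := by
  have h1 : ∀ r, gf (Irr r) = ENNReal.ofReal (kk r) := by
    intro r
    unfold kk kap'
    rw [ENNReal.ofReal_toReal]
    have h2 : gf (Irr r) ≤ BT r := by
      rw [← gf_Brd]
      exact gf_mono (fun t ht => ht.1)
    refine ne_top_of_le_ne_top ?_ h2
    rw [BT_ofReal]
    exact ENNReal.ofReal_ne_top
  rw [Finset.sum_congr rfl (fun r _ => h1 r), ← ENNReal.ofReal_sum_of_nonneg (fun r _ => kk_nonneg r)]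
  apply ENNReal.ofReal_le_ofReal
  have hU := Num2Aux.UU_pos n
  have h3 := UU_mul_KK n
  have h4 : ∑ r ∈ Finset.Ico (n + 1) N, kk r ≤ KK' (n + 1) := by
    rcases Nat.lt_or_ge N (n + 1) with h | h
    · rw [Finset.Ico_eq_empty (by omega), Finset.sum_empty]
      exact KK_nonneg _
    · unfold KK'
      have h5 := sum_kk_le N
      rw [Finset.sum_Ico_eq_sub _ h]
      linarith
  rw [le_div_iff₀ hU]
  calc (∑ r ∈ Finset.Ico (n + 1) N, kk r) * UU n ≤ KK' (n + 1) * UU n := by gcongr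
    _ ≤ 1 := by linarith

lemma nflat_succ (A : ℕ) (t : List Bool) (k0 k1 : ℕ) : nflat A t k0 (k1 + 1) ≤ nflat A t k0 k1 + 1 := by
  classical
  unfold nflat
  have hsub : (Finset.Icc k0 (k1 + 1)).filter (fun k => Flat 8 A t k) ⊆
      insert (k1 + 1) ((Finset.Icc k0 k1).filter (fun k => Flat 8 A t k)) := by
    intro k hk
    rw [Finset.mem_filter, Finset.mem_Icc] at hk
    rw [Finset.mem_insert, Finset.mem_filter, Finset.mem_Icc]
    by_cases h : k = k1 + 1
    · exact Or.inl h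
    · exact Or.inr ⟨by omega, hk.2⟩
  exact (Finset.card_le_card hsub).trans (Finset.card_insert_le _ _)

/-- Theorem D for all giants of height at least 2 ^ l -/
theorem flat_log (m : ℕ) {ε : ℝ} (hε : 0 < ε) : ∃ (A0 : ℕ) (C : ℝ), 0 < C ∧ ∀ (a b : Bool) (A k0 k1 l N : ℕ),
    A0 ≤ A → k1 ≤ l → ∑ r ∈ Finset.Ico (2 ^ l) N, gf (FS a b m A k0 k1 r) ≤
      ENNReal.ofReal (C / UU (2 ^ l) * 2 ^ (l - k1) * ε ^ (k1 + 1 - k0)) := by
  obtain ⟨A0, C, hC, h⟩ := flat_tail (2 * m) hε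
  obtain ⟨δ, hδ⟩ : ∃ δ : ℝ, δ = min ε 1 := ⟨_, rfl⟩
  have hδ0 : 0 < δ := by rw [hδ]; exact lt_min hε one_pos
  have hδ1 : δ ≤ 1 := by rw [hδ]; exact min_le_right _ _
  have hδε : δ ≤ ε := by rw [hδ]; exact min_le_left _ _
  obtain ⟨D, hD⟩ : ∃ D : ℝ, D = 4 * C / ε + 2 / δ ^ (2 * m + 2) := ⟨_, rfl⟩
  have hD1 : 0 < 4 * C / ε := by positivity
  have hD2 : 0 < 2 / δ ^ (2 * m + 2) := by positivity
  have hD0 : 0 < D := by rw [hD]; linarith
  refine ⟨A0, D, hD0, fun a b A k0 k1 l N hA hk => ?_⟩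
  rw [Finset.sum_congr rfl (fun r _ => gf_FS a b m A k0 k1 r)]
  obtain ⟨s, hs⟩ : ∃ s : ℕ, 2 ^ l = s + 1 := ⟨2 ^ l - 1, by have : 1 ≤ 2 ^ l := Nat.one_le_two_pow
                                                            omega⟩
  have hUl := Num2Aux.UU_pos (2 ^ l)
  have hUs := Num2Aux.UU_pos s
  have hU2 : UU (2 ^ l) ≤ 2 * UU s := by rw [hs]; exact UU_pred
  have hUinv : 1 / UU s ≤ 2 / UU (2 ^ l) := by
    rw [div_le_div_iff₀ hUs hUl]
    linarith
  have h2l : (1 : ℝ) ≤ 2 ^ (l - k1) := one_le_pow₀ (by norm_num)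
  rcases Nat.lt_or_ge (k1 + 1 - k0) (2 * m + 2) with hn | hn
  · -- few scales
    have h1 : ∑ r ∈ Finset.Ico (2 ^ l) N, gf (FM m A k0 k1 r) ≤ ENNReal.ofReal (1 / UU s) := by
      rw [hs]
      refine le_trans (Finset.sum_le_sum fun r _ => gf_mono ?_) (tail_triv s N)
      exact fun p hp => hp.1
    refine h1.trans (ENNReal.ofReal_le_ofReal (hUinv.trans ?_))
    have h3 : δ ^ (2 * m + 2) ≤ ε ^ (k1 + 1 - k0) := by
      calc δ ^ (2 * m + 2) ≤ δ ^ (k1 + 1 - k0) := pow_le_pow_of_le_one hδ0.le hδ1 hn.le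
        _ ≤ ε ^ (k1 + 1 - k0) := by gcongr
    have h4 : 2 ≤ D * ε ^ (k1 + 1 - k0) := by
      calc (2 : ℝ) = 2 / δ ^ (2 * m + 2) * δ ^ (2 * m + 2) := by
            rw [div_mul_cancel₀]
            positivity
        _ ≤ D * ε ^ (k1 + 1 - k0) := by
            have : 2 / δ ^ (2 * m + 2) ≤ D := by rw [hD]; linarith
            gcongr
    calc 2 / UU (2 ^ l) ≤ D * ε ^ (k1 + 1 - k0) / UU (2 ^ l) := by gcongr
      _ ≤ D * ε ^ (k1 + 1 - k0) / UU (2 ^ l) * 2 ^ (l - k1) := by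
          apply le_mul_of_one_le_right _ h2l
          positivity
      _ = _ := by ring
  · -- many scales
    obtain ⟨j, rfl⟩ : ∃ j, k1 = j + 1 := ⟨k1 - 1, by omega⟩
    have hj : 2 ^ j ≤ s := by
      have h1 : 2 ^ (j + 1) ≤ 2 ^ l := Nat.pow_le_pow_right (by norm_num) hk
      have h2 : 1 ≤ 2 ^ j := Nat.one_le_two_pow
      rw [pow_succ] at h1
      omega
    have h1 := h A k0 j s (N - 1) hA (by omega) hj
    have hsub : ∑ r ∈ Finset.Ico (2 ^ l) N, gf (FM m A k0 (j + 1) r) ≤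
        ∑ r ∈ Finset.Ioc s (N - 1), gf (FM (2 * m) A k0 j r) := by
      have e : Finset.Ico (2 ^ l) N ⊆ Finset.Ioc s (N - 1) := by
        intro r hr
        rw [Finset.mem_Ico] at hr
        rw [Finset.mem_Ioc]
        omega
      refine (Finset.sum_le_sum fun r _ => gf_mono ?_).trans (Finset.sum_le_sum_of_subset e)
      rintro p ⟨hp, h3⟩
      refine ⟨hp, ?_⟩
      have h4 := Nat.mul_le_mul_left m (nflat_succ A p k0 j)
      have h5 : m * (nflat A p k0 j + 1) = m * nflat A p k0 j + m := by ring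
      have h6 : 2 * m * nflat A p k0 j = 2 * (m * nflat A p k0 j) := by ring
      rw [h6]
      omega
    refine (hsub.trans h1).trans (ENNReal.ofReal_le_ofReal ?_)
    obtain ⟨n, hn'⟩ : ∃ n, n = j + 1 - k0 := ⟨_, rfl⟩
    have e1 : j + 1 + 1 - k0 = n + 1 := by omega
    rw [e1, ← hn']
    have h3 : (s : ℝ) / 2 ^ j ≤ 2 * 2 ^ (l - (j + 1)) := by
      rw [div_le_iff₀ (by positivity)]
      have e2 : (2 : ℝ) * 2 ^ (l - (j + 1)) * 2 ^ j = 2 ^ l := by
        rw [← pow_succ', ← pow_add]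
        congr 1
        omega
      rw [e2]
      have : (s : ℝ) + 1 = 2 ^ l := by
        have := congrArg (Nat.cast : ℕ → ℝ) hs
        push_cast at this
        linarith
      linarith
    calc C / UU s * ((s : ℝ) / 2 ^ j) * ε ^ n
        = C * (1 / UU s) * ((s : ℝ) / 2 ^ j) * ε ^ n := by ring
      _ ≤ C * (2 / UU (2 ^ l)) * (2 * 2 ^ (l - (j + 1))) * ε ^ n := by gcongr
      _ = 4 * C / ε / UU (2 ^ l) * 2 ^ (l - (j + 1)) * ε ^ (n + 1) := by
          rw [pow_succ]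
          field_simp
          ring
      _ ≤ D / UU (2 ^ l) * 2 ^ (l - (j + 1)) * ε ^ (n + 1) := by
          have : 4 * C / ε ≤ D := by rw [hD]; linarith
          gcongr

end Wall

end HexObs
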