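import Pool.Agent.HexWall.FlatB
import Pool.Agent.HexSPR.LatAd
import Pool.Agent.PHW.Num2
import Pool.Agent.PHW.Jump
import Pool.Agent.PHW.IrrDec
import Pool.Agent.PHW.Mirror

/-!
Flat giants (Theorem C of PHW_S2).
-/

set_option autoImplicit false

namespace HexObs

open Complex Finset ENNReal

namespace Wall

/-- LAT0, unconditional -/
theorem lat0 : Ex.Lat0 := Ex.lat0_of Tube.lat1 Tube.sc_top Tube.far_le

lemma BT_ofReal (j : ℕ) : BT j = ENNReal.ofReal (uu j) := by
  unfold uu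
  rw [ENNReal.ofReal_toReal]
  rcases Nat.eq_zero_or_pos j with h | h
  · rw [h, ← gf_Brd]
    have e : Brd 0 = {[]} := by
      ext t
      rw [Set.mem_singleton_iff]
      constructor
      · intro ht
        by_contra hne
        have hl : 1 ≤ t.length := by
          rcases Nat.eq_zero_or_pos t.length with h0 | h0
          · exact absurd (List.length_eq_zero_iff.1 h0) hne
          · exact h0
        have := (mem_Brd.1 ht).1 1 le_rfl hl
        omega
      · rintro rfl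
        exact nil_mem_Brd
    rw [e]
    have := gf_finset {([] : List Bool)}
    rw [Finset.coe_singleton] at this
    rw [this]
    exact ENNReal.ofReal_ne_top
  · exact BT_ne_top h

/-- most bridges of height j end at a lateral position of order j -/
lemma exists_Lam : ∃ Λ : ℕ, ∀ j : ℕ, ENNReal.ofReal (uu j / 2) ≤ gf {s | s ∈ Brd j ∧ |latE s| ≤ Λ * j} := by
  obtain ⟨M, hM⟩ := lat0 (1 / 2) (by norm_num)
  refine ⟨M, ?_⟩
  intro j
  rcases Nat.eq_zero_or_pos j with h | h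
  · have e : ({s | s ∈ Brd j ∧ |latE s| ≤ M * j} : Set (List Bool)) = Brd j := by
      ext s
      constructor
      · exact fun hs => hs.1
      · intro hs
        refine ⟨hs, ?_⟩
        rw [h] at hs
        have hs0 : s = [] := by
          by_contra hne
          have hl : 1 ≤ s.length := by
            rcases Nat.eq_zero_or_pos s.length with h0 | h0
            · exact absurd (List.length_eq_zero_iff.1 h0) hne
            · exact h0
          have := (mem_Brd.1 hs).1 1 le_rfl hl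
          omega
        rw [hs0, h]
        have : latE [] = 0 := by decide
        rw [this]
        simp
    rw [e, gf_Brd, BT_ofReal]
    apply ENNReal.ofReal_le_ofReal
    have := (uu_pos j).le
    linarith
  · have h1 := hM j h
    have hsub : Brd j ⊆ {s | s ∈ Brd j ∧ |latE s| ≤ M * j} ∪
        {t | t ∈ Brd j ∧ ∃ i, i ≤ t.length ∧ (M * j : ℤ) < |lat t i|} := by
      intro t ht
      rcases le_or_gt |latE t| (M * j : ℤ) with h2 | h2
      · exact Or.inl ⟨ht, h2⟩
      · exact Or.inr ⟨ht, t.length, le_rfl, h2⟩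
    have h2 := (gf_mono hsub).trans (gf_union_le _ _)
    rw [gf_Brd, BT_ofReal] at h2
    have h3 : ENNReal.ofReal (uu j) ≤ gf {s | s ∈ Brd j ∧ |latE s| ≤ M * j} + ENNReal.ofReal (uu j / 2) := by
      refine h2.trans ?_
      gcongr
      refine h1.trans (ENNReal.ofReal_le_ofReal (le_of_eq ?_))
      show 1 / 2 * bT j = uu j / 2
      rw [uu_eq h]
      ring
    have e2 : ENNReal.ofReal (uu j) = ENNReal.ofReal (uu j / 2) + ENNReal.ofReal (uu j / 2) := by
      have := (uu_pos j).le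
      rw [← ENNReal.ofReal_add (by linarith) (by linarith)]
      congr 1
      ring
    rw [e2] at h3
    exact (ENNReal.add_le_add_iff_right ENNReal.ofReal_ne_top).1 h3

lemma clr_mono {t : List Bool} {y : ℕ} {w w' : ℤ} (h : w' ≤ w) (hc : Clr t y w) : Clr t y w' :=
  fun i hi hl => lt_of_le_of_lt h (hc i hi hl)

/-- layers of the middle piece -/
lemma clr_mid {j r n : ℕ} {s p u : List Bool} (hs : s ∈ Brd j) (hp : p ∈ Brd r) (hu : u ∈ Brd n) {y : ℕ}
    (hy : 1 ≤ y) (hyr : y ≤ r) {w : ℤ} (hc : Clr p y w) : Clr (s ++ p ++ u) (j + y) (w + latE s) := by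
  have hsp := Brd_append hs hp
  intro i hi hlev
  push_cast at hlev
  by_cases h1 : i ≤ s.length
  · exfalso
    rw [List.append_assoc, lev_append (by omega)] at hlev
    rcases Nat.eq_zero_or_pos i with h0 | h0
    · rw [h0, lev_zero] at hlev
      omega
    · have := ((mem_Brd.1 hs).1 i h0 h1).2
      omega
  · by_cases h2 : i ≤ s.length + p.length
    · obtain ⟨i', hi', hip, rfl⟩ : ∃ i', 1 ≤ i' ∧ i' ≤ p.length ∧ i = s.length + i' := ⟨i - s.length, by omega, by omega, by omega⟩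
      rw [lev_append (by rw [List.length_append]; omega), lev_cat (mem_Brd.1 hs).2.2.1, (mem_Brd.1 hs).2.2.2] at hlev
      rw [lat_append (by rw [List.length_append]; omega), lat_cat (mem_Brd.1 hs).2.2.1]
      have := hc i' hip (by omega)
      unfold latE
      linarith
    · exfalso
      obtain ⟨i', hi', hip, rfl⟩ : ∃ i', 1 ≤ i' ∧ i' ≤ u.length ∧ i = (s ++ p).length + i' := by
        rw [List.length_append] at hi
        rw [List.length_append] at hi ⊢
        exact ⟨i - (s.length + p.length), by omega, by omega, by omega⟩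
      rw [lev_cat (mem_Brd.1 hsp).2.2.1, (mem_Brd.1 hsp).2.2.2] at hlev
      have := ((mem_Brd.1 hu).1 i' hi' hip).1
      push_cast at hlev
      omega

lemma nvis_mid {j r n : ℕ} {s p u : List Bool} (hs : s ∈ Brd j) (hp : p ∈ Brd r) (hu : u ∈ Brd n) {k : ℕ}
    (hkr : 2 ^ k ≤ r) {w w' : ℤ} (hw : w' ≤ w + latE s) : nvis (s ++ p ++ u) k w' ≤ nvis p k w + j := by
  classical
  unfold nvis
  set B := (Finset.Ioc (2 ^ (k - 1)) (2 ^ k)).filter (fun y => ¬ Clr p y w) with hB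
  have hsub : (Finset.Ioc (2 ^ (k - 1)) (2 ^ k)).filter (fun y => ¬ Clr (s ++ p ++ u) y w') ⊆
      B.image (fun y => j + y) ∪ Finset.Ioc (2 ^ (k - 1)) (2 ^ (k - 1) + j) := by
    intro Y hY
    rw [Finset.mem_filter, Finset.mem_Ioc] at hY
    obtain ⟨⟨h1, h2⟩, h3⟩ := hY
    have hpos : 0 < 2 ^ (k - 1) := by positivity
    rw [Finset.mem_union]
    rcases Nat.lt_or_ge (2 ^ (k - 1) + j) Y with h4 | h4
    · left
      rw [Finset.mem_image]
      refine ⟨Y - j, ?_, by omega⟩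
      rw [hB, Finset.mem_filter, Finset.mem_Ioc]
      refine ⟨⟨by omega, by omega⟩, fun hc => h3 ?_⟩
      have h5 := clr_mid hs hp hu (y := Y - j) (by omega) (by omega) hc
      rw [show j + (Y - j) = Y by omega] at h5
      exact clr_mono hw h5
    · right
      rw [Finset.mem_Ioc]
      exact ⟨h1, h4⟩
  refine (Finset.card_le_card hsub).trans ((Finset.card_union_le _ _).trans ?_)
  apply add_le_add Finset.card_image_le
  rw [Nat.card_Ioc]
  omega

/-- a flat middle piece makes the whole bridge flat -/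
lemma flat_mid {j r n a : ℕ} {s p u : List Bool} (hs : s ∈ Brd j) (hp : p ∈ Brd r) (hu : u ∈ Brd n) {k K Λ : ℕ}
    (hja : j ≤ a) (hlat : |latE s| ≤ Λ * j) (hkr : 2 ^ k ≤ r) (h8 : 8 * a ≤ 2 ^ k) (hL : Λ * a ≤ 2 ^ k) (hK : 1 ≤ K)
    (hf : Flat 8 (12 * K) p k) : Flat 4 (6 * K) (s ++ p ++ u) k := by
  unfold Flat at hf ⊢
  have hw : ((6 * K : ℕ) : ℤ) * 2 ^ k ≤ ((12 * K : ℕ) : ℤ) * 2 ^ k + latE s := by
    have h1 : -(Λ * j : ℤ) ≤ latE s := by
      have := neg_abs_le (latE s)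
      linarith
    have h2 : ((Λ * j : ℕ) : ℤ) ≤ ((2 ^ k : ℕ) : ℤ) := by
      exact_mod_cast (Nat.mul_le_mul_left Λ hja).trans hL
    push_cast at h2 ⊢
    have h3 : (1 : ℤ) ≤ K := by exact_mod_cast hK
    have h4 : (0 : ℤ) ≤ 2 ^ k := by positivity
    nlinarith
  have h5 := nvis_mid hs hp hu hkr hw
  omega

/-- the flat giants -/
def FG (K : ℕ) (H : Finset ℕ) (r : ℕ) : Set (List Bool) := {p | p ∈ Irr r ∧ ∀ k ∈ H, Flat 8 (12 * K) p k}

/-- starting pieces -/
def SL (Λ j : ℕ) : Set (List Bool) := {s | s ∈ Brd j ∧ |latE s| ≤ Λ * j}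

lemma triple_le {T t a K Λ : ℕ} {H : Finset ℕ} (hat : a ≤ t) (hT : 3 * t ≤ T) (hK : 1 ≤ K)
    (hH : ∀ k ∈ H, 2 ^ k ≤ t ∧ 8 * a ≤ 2 ^ k ∧ Λ * a ≤ 2 ^ k) :
    ∑ q ∈ Finset.range (a + 1) ×ˢ Finset.Ioc t (2 * t), gf (SL Λ q.1) * gf (FG K H q.2) * BT (T - q.1 - q.2) ≤
      gf {w | w ∈ Brd T ∧ ∀ k ∈ H, Flat 4 (6 * K) w k} := by
  classical
  set C : ℕ × ℕ → Set (List Bool) := fun q => {w | ∃ s p u, s ∈ SL Λ q.1 ∧ p ∈ FG K H q.2 ∧
    u ∈ Brd (T - q.1 - q.2) ∧ w = s ++ p ++ u} with hC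
  have h1 : ∀ q ∈ Finset.range (a + 1) ×ˢ Finset.Ioc t (2 * t),
      gf (SL Λ q.1) * gf (FG K H q.2) * BT (T - q.1 - q.2) ≤ gf (C q) := by
    rintro ⟨j, r⟩ hq
    rw [Finset.mem_product, Finset.mem_range, Finset.mem_Ioc] at hq
    simp only at hq ⊢
    rw [← gf_Brd]
    have e1 : gf (SL Λ j) * gf (FG K H r) ≤ gf {w | ∃ s p, s ∈ SL Λ j ∧ p ∈ FG K H r ∧ w = s ++ p} := by
      apply mul_le_gf
      · intro s hs p hp
        exact ⟨s, p, hs, hp, rfl⟩
      · intro s hs p hp s' hs' p' hp' h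
        have := jump_unique (s := a) (b := 0) (b' := 0) (u := []) (u' := []) (by omega) (by omega) (by omega) (by omega)
          hs.1 hp.1 nil_mem_Brd hs'.1 hp'.1 nil_mem_Brd (by rw [List.append_nil, List.append_nil]; exact h)
        exact this.1
    refine (mul_le_mul_left e1 _).trans ?_
    apply mul_le_gf
    · rintro w ⟨s, p, hs, hp, rfl⟩ u hu
      exact ⟨s, p, u, hs, hp, hu, rfl⟩
    · rintro w ⟨s, p, hs, hp, rfl⟩ u hu w' ⟨s', p', hs', hp', rfl⟩ u' hu' h
      have := jump_unique (s := a) (by omega) (by omega) (by omega) (by omega)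
          hs.1 hp.1 hu hs'.1 hp'.1 hu' h
      rw [this.1, this.2.1]
  refine (Finset.sum_le_sum h1).trans ?_
  rw [← gf_biUnion]
  · apply gf_mono
    intro w hw
    simp only [Set.mem_iUnion] at hw
    obtain ⟨⟨j, r⟩, hq, s, p, u, hs, hp, hu, rfl⟩ := hw
    rw [Finset.mem_product, Finset.mem_range, Finset.mem_Ioc] at hq
    simp only at hq hs hp hu
    have h2 := Brd_append (Brd_append hs.1 hp.1.1) hu
    rw [show j + r + (T - j - r) = T by omega] at h2
    refine ⟨h2, fun k hk => ?_⟩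
    obtain ⟨k1, k2, k3⟩ := hH k hk
    exact flat_mid hs.1 hp.1.1 hu (a := a) (by omega) hs.2 (by omega) k2 k3 hK (hp.2 k hk)
  · rintro ⟨j, r⟩ hq ⟨j', r'⟩ hq' hne
    rw [Finset.mem_product, Finset.mem_range, Finset.mem_Ioc] at hq hq'
    simp only at hq hq'
    rw [Set.disjoint_left]
    rintro w ⟨s, p, u, hs, hp, hu, rfl⟩ ⟨s', p', u', hs', hp', hu', h⟩
    simp only at hs hp hu hs' hp' hu'
    have h3 := jump_unique (s := a) (by omega) (by omega) (by omega) (by omega)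
          hs.1 hp.1 hu hs'.1 hp'.1 hu' h
    apply hne
    rw [h3.1] at hs
    rw [h3.2.1] at hp
    rw [Brd_height hs.1 hs'.1, Brd_height hp.1.1 hp'.1.1]

/-- one tiling gives the sum over the giants -/
lemma giants_le {t a K Λ : ℕ} {H : Finset ℕ} (hΛ : ∀ j : ℕ, ENNReal.ofReal (uu j / 2) ≤ gf (SL Λ j)) (hat : a ≤ t)
    (hK : 1 ≤ K) (hH : ∀ k ∈ H, 2 ^ k ≤ t ∧ 8 * a ≤ 2 ^ k ∧ Λ * a ≤ 2 ^ k) {y : ℝ}
    (hy : gf {w | w ∈ Brd (4 * t) ∧ ∀ k ∈ H, Flat 4 (6 * K) w k} ≤ ENNReal.ofReal y) :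
    ∑ r ∈ Finset.Ioc t (2 * t), gf (FG K H r) ≤ ENNReal.ofReal (y / (UU a / 2 * uu (4 * t))) := by
  have h1 := (triple_le (T := 4 * t) (K := K) (Λ := Λ) (H := H) hat (by omega) hK hH).trans hy
  have h2 : ENNReal.ofReal (UU a / 2 * uu (4 * t)) * ∑ r ∈ Finset.Ioc t (2 * t), gf (FG K H r) ≤
      ∑ q ∈ Finset.range (a + 1) ×ˢ Finset.Ioc t (2 * t), gf (SL Λ q.1) * gf (FG K H q.2) * BT (4 * t - q.1 - q.2) := by
    rw [Finset.sum_product, ENNReal.ofReal_mul (by have := Num2Aux.UU_pos a; linarith)]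
    have e1 : ENNReal.ofReal (UU a / 2) = ∑ j ∈ Finset.range (a + 1), ENNReal.ofReal (uu j / 2) := by
      rw [← ENNReal.ofReal_sum_of_nonneg (fun j _ => by have := (uu_pos j).le; linarith)]
      unfold UU
      rw [Finset.sum_div]
    rw [e1, Finset.sum_mul, Finset.sum_mul]
    apply Finset.sum_le_sum
    intro j hj
    rw [Finset.mul_sum]
    apply Finset.sum_le_sum
    intro r hr
    rw [Finset.mem_range] at hj
    rw [Finset.mem_Ioc] at hr
    rw [mul_assoc, mul_assoc, mul_comm (gf (FG K H r))]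
    gcongr
    · exact hΛ j
    · rw [BT_ofReal]
      exact ENNReal.ofReal_le_ofReal (uu_anti (by omega))
  have hpos : 0 < UU a / 2 * uu (4 * t) := by
    have := Num2Aux.UU_pos a
    have := uu_pos (4 * t)
    positivity
  rw [ENNReal.ofReal_div_of_pos hpos, ENNReal.le_div_iff_mul_le]
  · rw [mul_comm]
    exact h2.trans h1
  · left
    rw [Ne, ENNReal.ofReal_eq_zero]
    exact not_le.2 hpos
  · left
    exact ENNReal.ofReal_ne_top

/-- the trivial bound for the giants -/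
theorem giants_triv (t : ℕ) : ∑ r ∈ Finset.Ioc t (2 * t), gf (Irr r) ≤ ENNReal.ofReal (2 / UU t) := by
  obtain ⟨Λ, hΛ⟩ := exists_Lam
  have h := giants_le (t := t) (a := t) (K := 1) (Λ := Λ) (H := ∅) hΛ le_rfl le_rfl (by simp) (y := uu (4 * t)) ?_
  · have e : ∀ r, FG 1 ∅ r = Irr r := by
      intro r
      ext p
      unfold FG
      simp
    simp only [e] at h
    refine h.trans (ENNReal.ofReal_le_ofReal (le_of_eq ?_))
    have h1 := Num2Aux.UU_pos t
    have h2 := uu_pos (4 * t)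
    field_simp
  · rw [← BT_ofReal, ← gf_Brd]
    apply gf_mono
    intro w hw
    exact hw.1

/-- Theorem C: flat giants -/
theorem flat_giants {t a K Λ : ℕ} {H : Finset ℕ} (hΛ : ∀ j : ℕ, ENNReal.ofReal (uu j / 2) ≤ gf (SL Λ j)) (ha : 1 ≤ a)
    (hat : a ≤ t) (hK : 1 ≤ K) (hne : H.Nonempty) (hH : ∀ k ∈ H, 2 ^ k ≤ t ∧ 8 * a ≤ 2 ^ k ∧ Λ * a ≤ 2 ^ k) :
    ∑ r ∈ Finset.Ioc t (2 * t), gf (FG K H r) ≤
      ENNReal.ofReal (48000 * (6 + CW) * ((t : ℝ) / a) * (2 * (3 / 5) ^ K) ^ H.card / UU t) := by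
  have hmem := Finset.min'_mem H hne
  have hmin : ∀ k ∈ H, H.min' hne ≤ k := fun k hk => Finset.min'_le H k hk
  set k0 := H.min' hne with hk0
  obtain ⟨m1, m2, m3⟩ := hH k0 hmem
  have h1 : 1 ≤ k0 := by
    by_contra hcon
    have : k0 = 0 := by omega
    rw [this] at m2
    norm_num at m2
    omega
  have h4 := flat_bridges (T := 4 * t) (K := K) H hK hmem hmin h1 (fun k hk => by have := (hH k hk).1; omega)
  refine (giants_le hΛ hat hK hH h4).trans (ENNReal.ofReal_le_ofReal ?_)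
  have hu : uu (2 ^ (k0 - 1)) ≤ uu a := by
    apply uu_anti
    obtain ⟨j, hj⟩ : ∃ j, k0 = j + 1 := ⟨k0 - 1, by omega⟩
    rw [hj, pow_succ] at m2
    rw [hj, Nat.add_sub_cancel]
    omega
  have hUa := Num2Aux.UU_pos a
  have hUt := Num2Aux.UU_pos t
  have hut := uu_pos (4 * t)
  have hCW := Num2Aux.CW_pos
  have h5 := Num2Aux.mul_le_UU a
  have h6 := UU_le_mul (T := 4 * t) (by omega)
  have h7 := Num2Aux.UU_mono (show t ≤ 4 * t by omega)
  have ha' : (0 : ℝ) < a := by exact_mod_cast ha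
  have hq : (0 : ℝ) ≤ (2 * (3 / 5) ^ K) ^ H.card := by positivity
  have h8 : UU t ≤ (6 + CW) * (4 * t) * uu (4 * t) := by
    push_cast at h6
    linarith
  -- uu a ≤ UU a / a and 1 / uu (4 t) ≤ (6 + CW) 4 t / UU t
  have h9 : uu (2 ^ (k0 - 1)) ≤ UU a / a := by
    rw [le_div_iff₀ ha']
    linarith [mul_le_mul_of_nonneg_left hu ha'.le]
  have h10 : 1 / uu (4 * t) ≤ (6 + CW) * (4 * t) / UU t := by
    rw [div_le_div_iff₀ hut hUt]
    linarith
  calc (2 * (3 / 5) ^ K) ^ H.card * (6000 * uu (2 ^ (k0 - 1))) / (UU a / 2 * uu (4 * t))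
      = (2 * (3 / 5) ^ K) ^ H.card * 12000 * (uu (2 ^ (k0 - 1)) / UU a) * (1 / uu (4 * t)) := by
        field_simp
        ring
    _ ≤ (2 * (3 / 5) ^ K) ^ H.card * 12000 * (1 / a) * ((6 + CW) * (4 * t) / UU t) := by
        have h11 : uu (2 ^ (k0 - 1)) / UU a ≤ 1 / a := by
          rw [div_le_div_iff₀ hUa ha']
          rw [le_div_iff₀ ha'] at h9
          linarith
        have h12 : 0 ≤ 1 / uu (4 * t) := by positivity
        gcongr
    _ = _ := by
        field_simp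
        ring

end Wall

end HexObs
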