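import Pool.Agent.HexWall.FlatC

/-!
Giants which are flat at a positive fraction of the scales (Theorem D of PHW_S2).
-/

set_option autoImplicit false

namespace HexObs

open Complex Finset ENNReal

namespace Wall

/-- number of the flat scales of [k0, k1] -/
noncomputable def nflat (A : ℕ) (t : List Bool) (k0 k1 : ℕ) : ℕ := by
  classical exact ((Finset.Icc k0 k1).filter (fun k => Flat 8 A t k)).card

/-- the giants of height r such that m times the number of the flat scales of [k0, k1] is at least the number of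
all scales -/
def FM (m A k0 k1 r : ℕ) : Set (List Bool) := {p | p ∈ Irr r ∧ k1 + 1 - k0 ≤ m * nflat A p k0 k1}

lemma nvis_mono {t : List Bool} {k : ℕ} {w w' : ℤ} (h : w ≤ w') : nvis t k w ≤ nvis t k w' := by
  classical
  unfold nvis
  apply Finset.card_le_card
  intro y hy
  rw [Finset.mem_filter] at hy ⊢
  exact ⟨hy.1, fun hc => hy.2 (clr_mono h hc)⟩

lemma flat_anti {N A A' : ℕ} {t : List Bool} {k : ℕ} (h : A ≤ A') (hf : Flat N A' t k) : Flat N A t k := by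
  unfold Flat at hf ⊢
  refine lt_of_le_of_lt (Nat.mul_le_mul_left N (nvis_mono ?_)) hf
  have : (A : ℤ) ≤ A' := by exact_mod_cast h
  have h2 : (0 : ℤ) ≤ 2 ^ k := by positivity
  nlinarith

lemma nflat_anti {A A' : ℕ} {t : List Bool} {k0 k1 : ℕ} (h : A ≤ A') : nflat A' t k0 k1 ≤ nflat A t k0 k1 := by
  classical
  unfold nflat
  apply Finset.card_le_card
  intro k hk
  rw [Finset.mem_filter] at hk ⊢
  exact ⟨hk.1, flat_anti h hk.2⟩

lemma FM_anti {m A A' k0 k1 r : ℕ} (h : A ≤ A') : FM m A' k0 k1 r ⊆ FM m A k0 k1 r := by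
  rintro p ⟨hp, h1⟩
  exact ⟨hp, h1.trans (Nat.mul_le_mul_left m (nflat_anti h))⟩

/-- union over the sets of flat scales -/
lemma FM_union (m K k0 k1 r : ℕ) : gf (FM m (12 * K) k0 k1 r) ≤
    ∑ H ∈ (Finset.Icc k0 k1).powerset.filter (fun H => k1 + 1 - k0 ≤ m * H.card), gf (FG K H r) := by
  classical
  have hsub : FM m (12 * K) k0 k1 r ⊆
      ⋃ H ∈ (Finset.Icc k0 k1).powerset.filter (fun H => k1 + 1 - k0 ≤ m * H.card), FG K H r := by
    rintro p ⟨hp, h1⟩
    rw [Set.mem_iUnion₂]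
    refine ⟨(Finset.Icc k0 k1).filter (fun k => Flat 8 (12 * K) p k), ?_, hp, ?_⟩
    · rw [Finset.mem_filter, Finset.mem_powerset]
      refine ⟨Finset.filter_subset _ _, ?_⟩
      unfold nflat at h1
      convert h1
    · intro k hk
      exact (Finset.mem_filter.1 hk).2
  refine (gf_mono hsub).trans ?_
  generalize (Finset.Icc k0 k1).powerset.filter (fun H => k1 + 1 - k0 ≤ m * H.card) = S
  induction S using Finset.induction_on with
  | empty =>
    simp [gf]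
  | insert H S hH ih =>
    rw [Finset.sum_insert hH, Finset.set_biUnion_insert]
    exact (gf_union_le _ _).trans (add_le_add le_rfl ih)

lemma FG_mono {K r : ℕ} {H H' : Finset ℕ} (h : H' ⊆ H) : FG K H r ⊆ FG K H' r :=
  fun _ hp => ⟨hp.1, fun k hk => hp.2 k (h hk)⟩

/-- Theorem D, one block -/
theorem flat_block (m : ℕ) {ε : ℝ} (hε : 0 < ε) : ∃ (A0 : ℕ) (C : ℝ), 0 < C ∧ ∀ A k0 k1 t : ℕ, A0 ≤ A →
    k0 ≤ k1 → 2 ^ k1 ≤ t → ∑ r ∈ Finset.Ioc t (2 * t), gf (FM m A k0 k1 r) ≤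
      ENNReal.ofReal (C / UU t * ((t : ℝ) / 2 ^ k1) * ε ^ (k1 + 1 - k0)) := by
  classical
  obtain ⟨Λ, hΛ⟩ := exists_Lam
  obtain ⟨δ, hδ⟩ : ∃ δ : ℝ, δ = min ε 1 / 4 := ⟨_, rfl⟩
  have hδ0 : 0 < δ := by rw [hδ]; positivity
  have hδε : 4 * δ ≤ ε := by rw [hδ]; have := min_le_left ε 1; linarith
  have hδ1 : δ ≤ 1 / 4 := by rw [hδ]; have := min_le_right ε 1; linarith
  obtain ⟨K0, hK0⟩ : ∃ n : ℕ, (3 / 5 : ℝ) ^ n < δ ^ m / 2 :=
    exists_pow_lt_of_lt_one (by positivity) (by norm_num)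
  obtain ⟨K, hK⟩ : ∃ K : ℕ, K = K0 + 1 := ⟨_, rfl⟩
  have hK1 : 1 ≤ K := by omega
  obtain ⟨q, hq⟩ : ∃ q : ℝ, q = 2 * (3 / 5) ^ K := ⟨_, rfl⟩
  have hq0 : 0 < q := by rw [hq]; positivity
  have hqδ : q ≤ δ ^ m := by
    rw [hq, hK, pow_succ]
    have : (0 : ℝ) < (3 / 5) ^ K0 := by positivity
    linarith
  have hq1 : q ≤ 1 := hqδ.trans (pow_le_one₀ hδ0.le (by linarith))
  obtain ⟨l, hl⟩ : ∃ l : ℕ, l = Λ + 3 := ⟨_, rfl⟩
  have hl8 : 8 ≤ 2 ^ l := by
    rw [hl, pow_add]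
    have : 1 ≤ 2 ^ Λ := Nat.one_le_two_pow
    omega
  have hlΛ : Λ ≤ 2 ^ l := by
    have h1 : Λ < 2 ^ Λ := Nat.lt_two_pow_self
    have h2 : 2 ^ Λ ≤ 2 ^ l := Nat.pow_le_pow_right (by norm_num) (by omega)
    omega
  have hCW := Num2Aux.CW_pos
  obtain ⟨C, hC⟩ : ∃ C : ℝ, C = 2 / (2 * δ) ^ (m * l) + 48000 * (6 + CW) * 2 ^ l / q ^ l := ⟨_, rfl⟩
  have hC1 : 0 < 2 / (2 * δ) ^ (m * l) := by positivity
  have hC2 : 0 < 48000 * (6 + CW) * 2 ^ l / q ^ l := by positivity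
  have hC0 : 0 < C := by rw [hC]; linarith
  refine ⟨12 * K, C, hC0, ?_⟩
  intro A k0 k1 t hA hk ht
  obtain ⟨n, hn⟩ : ∃ n : ℕ, n = k1 + 1 - k0 := ⟨_, rfl⟩
  rw [← hn]
  have hUt := Num2Aux.UU_pos t
  have ht1 : (1 : ℝ) ≤ (t : ℝ) / 2 ^ k1 := by
    rw [le_div_iff₀ (by positivity), one_mul]
    exact_mod_cast ht
  -- one set of scales
  have hone : ∀ H ∈ (Finset.Icc k0 k1).powerset.filter (fun H => k1 + 1 - k0 ≤ m * H.card),
      ∑ r ∈ Finset.Ioc t (2 * t), gf (FG K H r) ≤ ENNReal.ofReal (C / UU t * ((t : ℝ) / 2 ^ k1) * (2 * δ) ^ n) := by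
    intro H hH
    rw [Finset.mem_filter, Finset.mem_powerset, ← hn] at hH
    obtain ⟨hH1, hH2⟩ := hH
    set H' := H.filter (fun k => l ≤ k) with hH'
    have hcard : H.card ≤ H'.card + l := by
      have h1 : H ⊆ H' ∪ Finset.range l := by
        intro k hk
        rw [Finset.mem_union, hH', Finset.mem_filter, Finset.mem_range]
        rcases le_or_gt l k with h | h
        · exact Or.inl ⟨hk, h⟩
        · exact Or.inr h
      have h2 := (Finset.card_le_card h1).trans (Finset.card_union_le _ _)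
      rw [Finset.card_range] at h2
      exact h2
    have hmono : ∑ r ∈ Finset.Ioc t (2 * t), gf (FG K H r) ≤ ∑ r ∈ Finset.Ioc t (2 * t), gf (FG K H' r) :=
      Finset.sum_le_sum fun r _ => gf_mono (FG_mono (Finset.filter_subset _ _))
    rcases H'.eq_empty_or_nonempty with he | hne
    · have h1 : n ≤ m * l := by
        rw [he, Finset.card_empty, zero_add] at hcard
        exact hH2.trans (Nat.mul_le_mul_left m hcard)
      have h2 : ∑ r ∈ Finset.Ioc t (2 * t), gf (FG K H' r) ≤ ENNReal.ofReal (2 / UU t) := by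
        refine le_trans (Finset.sum_le_sum fun r _ => gf_mono ?_) (giants_triv t)
        exact fun p hp => hp.1
      refine hmono.trans (h2.trans (ENNReal.ofReal_le_ofReal ?_))
      have h3 : (2 * δ) ^ (m * l) ≤ (2 * δ) ^ n := pow_le_pow_of_le_one (by positivity) (by linarith) h1
      have h4 : 2 ≤ C * (2 * δ) ^ n := by
        calc (2 : ℝ) = 2 / (2 * δ) ^ (m * l) * (2 * δ) ^ (m * l) := by
              rw [div_mul_cancel₀]
              positivity
          _ ≤ C * (2 * δ) ^ n := by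
              have : 2 / (2 * δ) ^ (m * l) ≤ C := by rw [hC]; linarith
              gcongr
      calc 2 / UU t ≤ C * (2 * δ) ^ n / UU t := by gcongr
        _ ≤ C * (2 * δ) ^ n / UU t * ((t : ℝ) / 2 ^ k1) := by
            apply le_mul_of_one_le_right _ ht1
            have : 0 ≤ C * (2 * δ) ^ n := by linarith
            positivity
        _ = _ := by ring
    · set j := max k0 l with hj
      have hmem : ∀ k ∈ H', j ≤ k ∧ k ≤ k1 := by
        intro k hk
        rw [hH', Finset.mem_filter] at hk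
        have := Finset.mem_Icc.1 (hH1 hk.1)
        omega
      have hjl : l ≤ j := le_max_right _ _
      have hj0 : k0 ≤ j := le_max_left _ _
      obtain ⟨b, hb⟩ : ∃ b, j = l + b := ⟨j - l, by omega⟩
      have hjk : j ≤ k1 := by
        obtain ⟨k, hk⟩ := hne
        have := hmem k hk
        omega
      have hbt : 2 ^ b ≤ t := by
        have : 2 ^ b ≤ 2 ^ k1 := Nat.pow_le_pow_right (by norm_num) (by omega)
        omega
      have h1 := flat_giants (t := t) (a := 2 ^ b) (K := K) (Λ := Λ) (H := H') hΛ Nat.one_le_two_pow hbt hK1 hne ?_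
      · refine hmono.trans (h1.trans (ENNReal.ofReal_le_ofReal ?_))
        rw [← hq]
        push_cast
        -- the volume factor
        have h2 : (t : ℝ) / 2 ^ b ≤ 2 ^ l * ((t : ℝ) / 2 ^ k1) * 2 ^ n := by
          have e1 : (2 : ℝ) ^ k1 ≤ 2 ^ l * 2 ^ n * 2 ^ b := by
            rw [← pow_add, ← pow_add]
            exact pow_le_pow_right₀ (by norm_num) (by omega)
          rw [div_le_iff₀ (by positivity)]
          have e2 : 2 ^ l * ((t : ℝ) / 2 ^ k1) * 2 ^ n * 2 ^ b = (t : ℝ) * ((2 ^ l * 2 ^ n * 2 ^ b) / 2 ^ k1) := by ring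
          rw [e2]
          apply le_mul_of_one_le_right (Nat.cast_nonneg t)
          rw [le_div_iff₀ (by positivity), one_mul]
          exact e1
        -- the gain
        have h3 : q ^ H'.card ≤ δ ^ n / q ^ l := by
          rw [le_div_iff₀ (by positivity), ← pow_add]
          calc q ^ (H'.card + l) ≤ q ^ H.card := pow_le_pow_of_le_one hq0.le hq1 hcard
            _ ≤ (δ ^ m) ^ H.card := by gcongr
            _ = δ ^ (m * H.card) := by rw [pow_mul]
            _ ≤ δ ^ n := pow_le_pow_of_le_one hδ0.le (by linarith) hH2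
        calc 48000 * (6 + CW) * ((t : ℝ) / 2 ^ b) * q ^ H'.card / UU t
            ≤ 48000 * (6 + CW) * (2 ^ l * ((t : ℝ) / 2 ^ k1) * 2 ^ n) * (δ ^ n / q ^ l) / UU t := by
              gcongr
          _ = (48000 * (6 + CW) * 2 ^ l / q ^ l) / UU t * ((t : ℝ) / 2 ^ k1) * (2 * δ) ^ n := by
              rw [mul_pow]
              ring
          _ ≤ C / UU t * ((t : ℝ) / 2 ^ k1) * (2 * δ) ^ n := by
              have : 48000 * (6 + CW) * 2 ^ l / q ^ l ≤ C := by rw [hC]; linarith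
              gcongr
      · intro k hk
        obtain ⟨g1, g2⟩ := hmem k hk
        have e1 : 2 ^ k ≤ 2 ^ k1 := Nat.pow_le_pow_right (by norm_num) g2
        have e2 : 2 ^ l * 2 ^ b ≤ 2 ^ k := by
          rw [← pow_add, ← hb]
          exact Nat.pow_le_pow_right (by norm_num) g1
        refine ⟨e1.trans ht, ?_, ?_⟩
        · exact (Nat.mul_le_mul_right _ hl8).trans e2
        · exact (Nat.mul_le_mul_right _ hlΛ).trans e2
  calc ∑ r ∈ Finset.Ioc t (2 * t), gf (FM m A k0 k1 r)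
      ≤ ∑ r ∈ Finset.Ioc t (2 * t), ∑ H ∈ (Finset.Icc k0 k1).powerset.filter (fun H => k1 + 1 - k0 ≤ m * H.card),
          gf (FG K H r) := by
        apply Finset.sum_le_sum
        intro r _
        exact (gf_mono (FM_anti hA)).trans (FM_union m K k0 k1 r)
    _ = ∑ H ∈ (Finset.Icc k0 k1).powerset.filter (fun H => k1 + 1 - k0 ≤ m * H.card),
          ∑ r ∈ Finset.Ioc t (2 * t), gf (FG K H r) := Finset.sum_comm
    _ ≤ ∑ _H ∈ (Finset.Icc k0 k1).powerset.filter (fun H => k1 + 1 - k0 ≤ m * H.card),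
          ENNReal.ofReal (C / UU t * ((t : ℝ) / 2 ^ k1) * (2 * δ) ^ n) := Finset.sum_le_sum hone
    _ ≤ (2 ^ n : ℕ) * ENNReal.ofReal (C / UU t * ((t : ℝ) / 2 ^ k1) * (2 * δ) ^ n) := by
        rw [Finset.sum_const, nsmul_eq_mul]
        gcongr
        refine (Finset.card_filter_le _ _).trans ?_
        rw [Finset.card_powerset, Nat.card_Icc, hn]
    _ ≤ ENNReal.ofReal (C / UU t * ((t : ℝ) / 2 ^ k1) * ε ^ n) := by
        rw [← ENNReal.ofReal_natCast, ← ENNReal.ofReal_mul (by positivity)]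
        apply ENNReal.ofReal_le_ofReal
        calc ((2 ^ n : ℕ) : ℝ) * (C / UU t * ((t : ℝ) / 2 ^ k1) * (2 * δ) ^ n)
            = C / UU t * ((t : ℝ) / 2 ^ k1) * (4 * δ) ^ n := by
              push_cast
              rw [show (4 * δ) = 2 * (2 * δ) by ring, mul_pow 2 (2 * δ)]
              ring
          _ ≤ C / UU t * ((t : ℝ) / 2 ^ k1) * ε ^ n := by gcongr

lemma sum_blocks (f : ℕ → ℝ≥0∞) (s J : ℕ) : ∑ r ∈ Finset.Ioc s (2 ^ J * s), f r =
    ∑ i ∈ Finset.range J, ∑ r ∈ Finset.Ioc (2 ^ i * s) (2 * (2 ^ i * s)), f r := by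
  induction J with
  | zero => simp
  | succ J ih =>
    rw [Finset.sum_range_succ, ← ih]
    have h1 : s ≤ 2 ^ J * s := Nat.le_mul_of_pos_left s (by positivity)
    have h2 : 2 ^ J * s ≤ 2 ^ (J + 1) * s := by
      apply Nat.mul_le_mul_right
      exact Nat.pow_le_pow_right (by norm_num) (by omega)
    rw [← Finset.sum_Ioc_consecutive f h1 h2]
    congr 2
    rw [pow_succ]
    ring_nf

/-- Theorem D, all giants of height greater than s -/
theorem flat_tail (m : ℕ) {ε : ℝ} (hε : 0 < ε) : ∃ (A0 : ℕ) (C : ℝ), 0 < C ∧ ∀ A k0 k1 s N : ℕ, A0 ≤ A →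
    k0 ≤ k1 → 2 ^ k1 ≤ s → ∑ r ∈ Finset.Ioc s N, gf (FM m A k0 k1 r) ≤
      ENNReal.ofReal (C / UU s * ((s : ℝ) / 2 ^ k1) * ε ^ (k1 + 1 - k0)) := by
  have hCW := Num2Aux.CW_pos
  obtain ⟨θ, hθ⟩ : ∃ θ : ℝ, θ = 1 / (6 + CW) / 2 := ⟨_, rfl⟩
  have hθ0 : 0 < θ := by rw [hθ]; positivity
  have hθ1 : θ ≤ 1 := by
    rw [hθ, div_le_one (by norm_num), div_le_iff₀ (by linarith)]
    linarith
  obtain ⟨ρ, hρ⟩ : ∃ ρ : ℝ, ρ = (2 : ℝ) ^ (-θ) := ⟨_, rfl⟩
  have hρ0 : 0 < ρ := by rw [hρ]; positivity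
  have hρ1 : ρ < 1 := by
    rw [hρ]
    exact Real.rpow_lt_one_of_one_lt_of_neg (by norm_num) (by linarith)
  obtain ⟨A0, C1, hC1, h1⟩ := flat_block m (ε := ε ^ (1 / θ)) (by positivity)
  refine ⟨A0, 2 * (2 + C1) / (1 - ρ), by have : 0 < 1 - ρ := by linarith
                                         positivity, ?_⟩
  intro A k0 k1 s N hA hk hs
  obtain ⟨n, hn⟩ : ∃ n : ℕ, n = k1 + 1 - k0 := ⟨_, rfl⟩
  have h2k : 1 ≤ 2 ^ k1 := Nat.one_le_two_pow
  have hs1 : 1 ≤ s := by omega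
  have hs0 : (0 : ℝ) < s := by exact_mod_cast hs1
  have hUs := Num2Aux.UU_pos s
  rw [← hn]
  obtain ⟨X, hX⟩ : ∃ X : ℝ, X = (s : ℝ) / 2 ^ k1 * (ε ^ (1 / θ)) ^ n := ⟨_, rfl⟩
  have hX0 : 0 < X := by rw [hX]; positivity
  have hs2 : (1 : ℝ) ≤ (s : ℝ) / 2 ^ k1 := by
    rw [le_div_iff₀ (by positivity), one_mul]
    exact_mod_cast hs
  have hXθ : X ^ θ ≤ (s : ℝ) / 2 ^ k1 * ε ^ n := by
    rw [hX, Real.mul_rpow (by positivity) (by positivity)]
    apply mul_le_mul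
    · calc ((s : ℝ) / 2 ^ k1) ^ θ ≤ ((s : ℝ) / 2 ^ k1) ^ (1 : ℝ) := Real.rpow_le_rpow_of_exponent_le hs2 hθ1
        _ = _ := Real.rpow_one _
    · rw [← Real.rpow_natCast (ε ^ (1 / θ)) n, ← Real.rpow_mul hε.le, ← Real.rpow_mul hε.le, ← Real.rpow_natCast ε n]
      apply le_of_eq
      congr 1
      field_simp
    · positivity
    · positivity
  -- one block
  have hblock : ∀ i : ℕ, ∑ r ∈ Finset.Ioc (2 ^ i * s) (2 * (2 ^ i * s)), gf (FM m A k0 k1 r) ≤
      ENNReal.ofReal (2 * (2 + C1) / UU s * X ^ θ * ρ ^ i) := by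
    intro i
    obtain ⟨t, ht⟩ : ∃ t, t = 2 ^ i * s := ⟨_, rfl⟩
    rw [← ht]
    have hst : s ≤ t := by rw [ht]; exact Nat.le_mul_of_pos_left s (by positivity)
    have hUt := Num2Aux.UU_pos t
    have g1 := h1 A k0 k1 t hA hk (hs.trans hst)
    rw [← hn] at g1
    have g2 : ∑ r ∈ Finset.Ioc t (2 * t), gf (FM m A k0 k1 r) ≤ ENNReal.ofReal (2 / UU t) := by
      refine le_trans (Finset.sum_le_sum fun r _ => gf_mono ?_) (giants_triv t)
      exact fun p hp => hp.1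
    have htX : (t : ℝ) / 2 ^ k1 * (ε ^ (1 / θ)) ^ n = 2 ^ i * X := by
      rw [hX, ht]
      push_cast
      ring
    have hz0 : (0 : ℝ) < 2 ^ i * X := by positivity
    -- growth
    have g3 := UU_growth hs1 hst
    have e1 : ((t : ℝ) / s) = 2 ^ i := by
      rw [ht]
      push_cast
      field_simp
    rw [e1] at g3
    have e2 : (((2 : ℝ) ^ i) ^ (1 / (6 + CW))) = ((2 : ℝ) ^ i) ^ θ * ((2 : ℝ) ^ i) ^ θ := by
      rw [← Real.rpow_add (by positivity)]
      congr 1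
      rw [hθ]
      ring
    have e3 : ((2 : ℝ) ^ i) ^ θ * ρ ^ i = 1 := by
      rw [hρ, ← Real.rpow_natCast ((2 : ℝ) ^ (-θ)) i, ← Real.rpow_natCast (2 : ℝ) i, ← Real.rpow_mul (by norm_num),
        ← Real.rpow_mul (by norm_num), ← Real.rpow_add (by norm_num)]
      have : (i : ℝ) * θ + -θ * i = 0 := by ring
      rw [this, Real.rpow_zero]
    have hpi : (0 : ℝ) < ((2 : ℝ) ^ i) ^ θ := by positivity
    have g4 : 1 / UU t * ((2 : ℝ) ^ i) ^ θ ≤ 2 / UU s * ρ ^ i := by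
      rw [e2] at g3
      have g5 : UU s * ((2 : ℝ) ^ i) ^ θ ≤ 2 * UU t * ρ ^ i := by
        calc UU s * ((2 : ℝ) ^ i) ^ θ = UU s * ((2 : ℝ) ^ i) ^ θ * (((2 : ℝ) ^ i) ^ θ * ρ ^ i) := by rw [e3, mul_one]
          _ = UU s * (((2 : ℝ) ^ i) ^ θ * ((2 : ℝ) ^ i) ^ θ) * ρ ^ i := by ring
          _ ≤ 2 * UU t * ρ ^ i := by gcongr
      rw [div_mul_eq_mul_div, div_mul_eq_mul_div, div_le_div_iff₀ hUt hUs]
      linarith
    have g6 : (2 + C1) / UU t * (2 ^ i * X) ^ θ ≤ 2 * (2 + C1) / UU s * X ^ θ * ρ ^ i := by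
      rw [Real.mul_rpow (by positivity) hX0.le]
      have := mul_le_mul_of_nonneg_left g4 (show 0 ≤ (2 + C1) * X ^ θ by positivity)
      calc (2 + C1) / UU t * (((2 : ℝ) ^ i) ^ θ * X ^ θ) = (2 + C1) * X ^ θ * (1 / UU t * ((2 : ℝ) ^ i) ^ θ) := by ring
        _ ≤ (2 + C1) * X ^ θ * (2 / UU s * ρ ^ i) := this
        _ = _ := by ring
    rcases le_or_gt 1 (2 ^ i * X) with hz | hz
    · refine g2.trans (ENNReal.ofReal_le_ofReal (le_trans ?_ g6))
      have h5 : 1 ≤ (2 ^ i * X) ^ θ := Real.one_le_rpow hz hθ0.le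
      calc 2 / UU t ≤ (2 + C1) / UU t := by
            gcongr
            linarith
        _ ≤ (2 + C1) / UU t * (2 ^ i * X) ^ θ := by
            apply le_mul_of_one_le_right _ h5
            positivity
    · refine g1.trans (ENNReal.ofReal_le_ofReal (le_trans ?_ g6))
      have h5 : 2 ^ i * X ≤ (2 ^ i * X) ^ θ := by
        calc 2 ^ i * X = (2 ^ i * X) ^ (1 : ℝ) := (Real.rpow_one _).symm
          _ ≤ (2 ^ i * X) ^ θ := Real.rpow_le_rpow_of_exponent_ge hz0 hz.le hθ1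
      calc C1 / UU t * ((t : ℝ) / 2 ^ k1) * (ε ^ (1 / θ)) ^ n = C1 / UU t * (2 ^ i * X) := by
            rw [mul_assoc, htX]
        _ ≤ (2 + C1) / UU t * (2 ^ i * X) ^ θ := by
            gcongr
            linarith
  have hN : ∃ J : ℕ, N ≤ 2 ^ J * s := by
    refine ⟨N, ?_⟩
    have e1 : N < 2 ^ N := Nat.lt_two_pow_self
    have e2 : 2 ^ N ≤ 2 ^ N * s := Nat.le_mul_of_pos_right _ hs1
    omega
  obtain ⟨J, hJ⟩ := hN
  have hrho : 0 < 1 - ρ := by linarith
  calc ∑ r ∈ Finset.Ioc s N, gf (FM m A k0 k1 r)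
      ≤ ∑ r ∈ Finset.Ioc s (2 ^ J * s), gf (FM m A k0 k1 r) :=
        Finset.sum_le_sum_of_subset (Finset.Ioc_subset_Ioc_right hJ)
    _ = ∑ i ∈ Finset.range J, ∑ r ∈ Finset.Ioc (2 ^ i * s) (2 * (2 ^ i * s)), gf (FM m A k0 k1 r) :=
        sum_blocks _ s J
    _ ≤ ∑ i ∈ Finset.range J, ENNReal.ofReal (2 * (2 + C1) / UU s * X ^ θ * ρ ^ i) :=
        Finset.sum_le_sum fun i _ => hblock i
    _ = ENNReal.ofReal (∑ i ∈ Finset.range J, 2 * (2 + C1) / UU s * X ^ θ * ρ ^ i) := by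
        rw [ENNReal.ofReal_sum_of_nonneg]
        intro i _
        positivity
    _ ≤ ENNReal.ofReal (2 * (2 + C1) / (1 - ρ) / UU s * ((s : ℝ) / 2 ^ k1) * ε ^ n) := by
        apply ENNReal.ofReal_le_ofReal
        rw [← Finset.mul_sum]
        have g7 : ∑ i ∈ Finset.range J, ρ ^ i ≤ 1 / (1 - ρ) := by
          rw [geom_sum_eq hρ1.ne, ← neg_div_neg_eq, neg_sub, neg_sub]
          gcongr
          have : 0 < ρ ^ J := by positivity
          linarith
        calc 2 * (2 + C1) / UU s * X ^ θ * ∑ i ∈ Finset.range J, ρ ^ i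
            ≤ 2 * (2 + C1) / UU s * ((s : ℝ) / 2 ^ k1 * ε ^ n) * (1 / (1 - ρ)) := by
              gcongr
          _ = _ := by ring

end Wall

end HexObs
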