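import Pool.Agent.HexWall.FlatD
import Pool.Agent.HexWall.Sym

/-!
Theorem D for the mirror image, the reversed giant and both.
-/

set_option autoImplicit false

namespace HexObs

open Complex Finset ENNReal

namespace Wall

/-- the four forms of a word: a = true: mirror image, b = true: reversal -/
def sy (a b : Bool) (p : List Bool) : List Bool :=
  if a then (if b then rev p else p).map not else (if b then rev p else p)

@[simp] lemma sy_ff (p : List Bool) : sy false false p = p := rfl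

@[simp] lemma sy_tf (p : List Bool) : sy true false p = p.map not := rfl

@[simp] lemma sy_ft (p : List Bool) : sy false true p = rev p := rfl

@[simp] lemma sy_tt (p : List Bool) : sy true true p = (rev p).map not := rfl

lemma rev_not (p : List Bool) : rev (p.map not) = (rev p).map not := by
  unfold rev
  rw [List.map_reverse]

lemma sy_sy (a b : Bool) (p : List Bool) : sy a b (sy a b p) = p := by
  cases a <;> cases b
  · rfl
  · exact rev_rev p
  · exact map_not_not p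
  · show (rev ((rev p).map not)).map not = p
    rw [rev_not, map_not_not, rev_rev]

lemma wE_sy (a b : Bool) (p : List Bool) : wE (sy a b p) = wE p := by
  cases a <;> cases b
  · rfl
  · exact wE_rev p
  · exact wE_not p
  · show wE ((rev p).map not) = wE p
    rw [wE_not, wE_rev]

lemma Irr_sy (a b : Bool) {r : ℕ} {p : List Bool} (h : p ∈ Irr r) : sy a b p ∈ Irr r := by
  cases a <;> cases b
  · exact h
  · exact Irr_rev h
  · exact Irr_not h
  · exact Irr_not (Irr_rev h)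

lemma Brd_sy (a b : Bool) {r : ℕ} {p : List Bool} (h : p ∈ Brd r) : sy a b p ∈ Brd r := by
  cases a <;> cases b
  · exact h
  · exact Brd_rev h
  · exact Brd_not h
  · exact Brd_not (Brd_rev h)

theorem gf_Irr_sy (a b : Bool) (r : ℕ) (Q : List Bool → Prop) :
    gf {P | P ∈ Irr r ∧ Q (sy a b P)} = gf {P | P ∈ Irr r ∧ Q P} :=
  gf_invol (sy a b) (sy_sy a b) (wE_sy a b) (fun _ h => Irr_sy a b h) Q

theorem gf_Brd_sy (a b : Bool) (r : ℕ) (Q : List Bool → Prop) :
    gf {P | P ∈ Brd r ∧ Q (sy a b P)} = gf {P | P ∈ Brd r ∧ Q P} :=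
  gf_invol (sy a b) (sy_sy a b) (wE_sy a b) (fun _ h => Brd_sy a b h) Q

/-- giants which are flat (in the form a b) at a fraction at least 1 / m of the scales -/
def FS (a b : Bool) (m A k0 k1 r : ℕ) : Set (List Bool) :=
  {p | p ∈ Irr r ∧ k1 + 1 - k0 ≤ m * nflat A (sy a b p) k0 k1}

theorem gf_FS (a b : Bool) (m A k0 k1 r : ℕ) : gf (FS a b m A k0 k1 r) = gf (FM m A k0 k1 r) :=
  gf_Irr_sy a b r (fun p => k1 + 1 - k0 ≤ m * nflat A p k0 k1)

/-- Theorem D, one block, all four forms -/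
theorem flat_block_sy (m : ℕ) {ε : ℝ} (hε : 0 < ε) : ∃ (A0 : ℕ) (C : ℝ), 0 < C ∧ ∀ (a b : Bool) (A k0 k1 t : ℕ),
    A0 ≤ A → k0 ≤ k1 → 2 ^ k1 ≤ t → ∑ r ∈ Finset.Ioc t (2 * t), gf (FS a b m A k0 k1 r) ≤
      ENNReal.ofReal (C / UU t * ((t : ℝ) / 2 ^ k1) * ε ^ (k1 + 1 - k0)) := by
  obtain ⟨A0, C, hC, h⟩ := flat_block m hε
  refine ⟨A0, C, hC, fun a b A k0 k1 t h1 h2 h3 => ?_⟩
  rw [Finset.sum_congr rfl (fun r _ => gf_FS a b m A k0 k1 r)]
  exact h A k0 k1 t h1 h2 h3

/-- Theorem D, all giants of height more than s, all four forms -/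
theorem flat_tail_sy (m : ℕ) {ε : ℝ} (hε : 0 < ε) : ∃ (A0 : ℕ) (C : ℝ), 0 < C ∧ ∀ (a b : Bool) (A k0 k1 s N : ℕ),
    A0 ≤ A → k0 ≤ k1 → 2 ^ k1 ≤ s → ∑ r ∈ Finset.Ioc s N, gf (FS a b m A k0 k1 r) ≤
      ENNReal.ofReal (C / UU s * ((s : ℝ) / 2 ^ k1) * ε ^ (k1 + 1 - k0)) := by
  obtain ⟨A0, C, hC, h⟩ := flat_tail m hε
  refine ⟨A0, C, hC, fun a b A k0 k1 s N h1 h2 h3 => ?_⟩
  rw [Finset.sum_congr rfl (fun r _ => gf_FS a b m A k0 k1 r)]
  exact h A k0 k1 s N h1 h2 h3

end Wall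

end HexObs
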