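import Pool.Agent.HexWall.Geo
import Pool.Agent.PHW.WallWind

/-!
Walls and gates: comparison of two nested domains.
-/

set_option autoImplicit false

namespace HexObs

open Complex Finset ENNReal

namespace Wall

/-- weight of the exits with the property P -/
noncomputable def ZZ (Ω : Finset Pt) (v0 d0 : Pt) (P : List Bool → Prop) : ℝ := by
  classical
  exact ∑ t ∈ (exits Ω v0 d0).filter P, xc ^ t.length

lemma ZZ_nonneg (Ω : Finset Pt) (v0 d0 : Pt) (P : List Bool → Prop) : 0 ≤ ZZ Ω v0 d0 P :=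
  Finset.sum_nonneg (fun _ _ => pow_nonneg xc_pos.le _)

lemma sin_nonneg_of {n : ℤ} (h1 : 0 ≤ n) (h2 : n ≤ 8) : 0 ≤ Real.sin ((n : ℝ) * (Real.pi / 8)) := by
  have a1 : (0 : ℝ) ≤ n := by exact_mod_cast h1
  have a2 : (n : ℝ) ≤ 8 := by exact_mod_cast h2
  have := Real.pi_pos
  apply Real.sin_nonneg_of_nonneg_of_le_pi
  · positivity
  · nlinarith

/-- comparison of two nested domains: all windings are between -3 and 3 -/
theorem compare {Ω Ω' : Finset Pt} {v0 d0 : Pt} (h0 : d0 ∈ dirs) (hhalf : ∀ v ∈ Ω', 0 < ip (v - v0) d0)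
    (hsub : Ω ⊆ Ω') (P P' : List Bool → Prop) {w w' : ℤ}
    (h1 : ∀ t ∈ exits Ω v0 d0, ¬ P t → t ∈ exits Ω' v0 d0 ∧ ¬ P' t)
    (h2 : ∀ t ∈ exits Ω v0 d0, P t → wind t = w)
    (h3 : ∀ t ∈ exits Ω' v0 d0, P' t → wind t = w')
    (h4 : ∀ t ∈ exits Ω' v0 d0, -3 ≤ wind t ∧ wind t ≤ 3) {m : ℤ} (hm1 : 3 ≤ m) (hm2 : m ≤ 5) :
    Real.sin (((m + w' : ℤ) : ℝ) * (Real.pi / 8)) * ZZ Ω' v0 d0 P' ≤
      Real.sin (((m + w : ℤ) : ℝ) * (Real.pi / 8)) * ZZ Ω v0 d0 P := by
  classical
  have i1 := identity_phase Ω' h0 hhalf (m : ℝ)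
  have i2 := identity_phase Ω h0 (fun v hv => hhalf v (hsub hv)) (m : ℝ)
  have s1 := Finset.sum_filter_add_sum_filter_not (exits Ω v0 d0) P
    (fun t => xc ^ t.length * Real.sin (((m : ℝ) + wind t) * (Real.pi / 8)))
  have s2 := Finset.sum_filter_add_sum_filter_not (exits Ω' v0 d0) P'
    (fun t => xc ^ t.length * Real.sin (((m : ℝ) + wind t) * (Real.pi / 8)))
  have e1 : ∑ t ∈ (exits Ω v0 d0).filter P, xc ^ t.length * Real.sin (((m : ℝ) + wind t) * (Real.pi / 8)) =
      Real.sin (((m + w : ℤ) : ℝ) * (Real.pi / 8)) * ZZ Ω v0 d0 P := by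
    unfold ZZ
    rw [Finset.mul_sum]
    apply Finset.sum_congr rfl
    intro t ht
    rw [Finset.mem_filter] at ht
    rw [h2 t ht.1 ht.2]
    push_cast
    ring
  have e2 : ∑ t ∈ (exits Ω' v0 d0).filter P', xc ^ t.length * Real.sin (((m : ℝ) + wind t) * (Real.pi / 8)) =
      Real.sin (((m + w' : ℤ) : ℝ) * (Real.pi / 8)) * ZZ Ω' v0 d0 P' := by
    unfold ZZ
    rw [Finset.mul_sum]
    apply Finset.sum_congr rfl
    intro t ht
    rw [Finset.mem_filter] at ht
    rw [h3 t ht.1 ht.2]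
    push_cast
    ring
  have e3 : ∑ t ∈ (exits Ω v0 d0).filter (fun t => ¬ P t), xc ^ t.length *
      Real.sin (((m : ℝ) + wind t) * (Real.pi / 8)) ≤
      ∑ t ∈ (exits Ω' v0 d0).filter (fun t => ¬ P' t), xc ^ t.length *
      Real.sin (((m : ℝ) + wind t) * (Real.pi / 8)) := by
    apply Finset.sum_le_sum_of_subset_of_nonneg
    · intro t ht
      rw [Finset.mem_filter] at ht ⊢
      exact h1 t ht.1 ht.2
    · intro t ht _
      rw [Finset.mem_filter] at ht
      obtain ⟨a1, a2⟩ := h4 t ht.1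
      have := sin_nonneg_of (n := m + wind t) (by omega) (by omega)
      push_cast at this
      exact mul_nonneg (pow_nonneg xc_pos.le _) this
  rw [e1, i2] at s1
  rw [e2, i1] at s2
  linarith

/-- the half row of height r on the left of w: levels 3 r + 2, 3 r + 3 -/
def HW (r : ℕ) (w : ℤ) : Set Pt := {v | (v.1 + 2 * v.2 = 3 * r + 2 ∨ v.1 + 2 * v.2 = 3 * r + 3) ∧ v.1 ≤ w}

lemma HW_eq (r : ℕ) (w : ℤ) : HW r w = hrow oo up r (-w) := by
  ext v
  unfold HW hrow
  rw [Set.mem_ofPred_eq, Set.mem_ofPred_eq, sub_oo, ip_up]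
  have e : cross up v = -v.1 := by
    unfold cross up
    ring
  rw [e]
  constructor
  · rintro ⟨h1, h2⟩
    exact ⟨h1, by linarith⟩
  · rintro ⟨h1, h2⟩
    exact ⟨h1, by linarith⟩

/-- a set of walls -/
def WW (l : Set (ℕ × ℤ)) : Set Pt := {v | ∃ p ∈ l, v ∈ HW p.1 p.2}

/-- the domain with walls -/
noncomputable def DW (l : Set (ℕ × ℤ)) (H : ℕ) (g : Bool) (c M : ℕ) : Finset Pt := slit (DF H g c M) (WW l)

lemma mem_DW {l : Set (ℕ × ℤ)} {H : ℕ} {g : Bool} {c M : ℕ} {v : Pt} :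
    v ∈ DW l H g c M ↔ v ∈ DD H g c M ∧ v ∉ WW l := by
  unfold DW
  rw [mem_slit, mem_DF]

lemma DW_half {l : Set (ℕ × ℤ)} {H : ℕ} {g : Bool} {c M : ℕ} : ∀ v ∈ DW l H g c M, 0 < ip (v - oo) up := by
  intro v hv
  rw [mem_DW] at hv
  rw [sub_oo, ip_up]
  exact hv.1.2.1

lemma saw_DD {l : Set (ℕ × ℤ)} {H : ℕ} {g : Bool} {c M : ℕ} {t : List Bool} (h : IsArr (DW l H g c M) oo up t) :
    Saw (DD H g c M) oo up t := ⟨fun i h1 h2 => (mem_DW.1 (h.mem i h1 h2)).1, h.inj⟩

/-- exits of the domain with walls -/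
lemma DW_exit {l : Set (ℕ × ℤ)} {H : ℕ} {g : Bool} {c M : ℕ} (hH : 1 ≤ H) (hc : 1 ≤ c) (hM : 1 ≤ M) {t : List Bool}
    (ht : t ∈ exits (DW l H g c M) oo up) :
    (tip oo up t ∈ DD H g c M ∧ tip oo up t ∈ WW l ∧ 0 ≤ wind t ∧ wind t ≤ 3) ∨
    (tip oo up t ∉ DD H g c M ∧
      ((dx up t t.length = -up ∧ (tip oo up t).1 + 2 * (tip oo up t).2 = 0 ∧ (wind t = 3 ∨ wind t = -3)) ∨
      (dx up t t.length = up ∧ (tip oo up t).1 + 2 * (tip oo up t).2 = 3 * H + 2 ∧ wind t = 0) ∨
      (dx up t t.length = rotL up ∧ (tip oo up t).2 - (tip oo up t).1 = 3 * M ∧ wind t = 1) ∨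
      (dx up t t.length = nm g ∧ wind t = if g then -2 else -1))) := by
  obtain ⟨harr, hout⟩ := mem_exits.1 ht
  have hs := saw_DD harr
  by_cases hD : tip oo up t ∈ DD H g c M
  · left
    have hW : tip oo up t ∈ WW l := by
      by_contra hcon
      exact hout (mem_DW.2 ⟨hD, hcon⟩)
    refine ⟨hD, hW, ?_⟩
    obtain ⟨p, hp, hpw⟩ := hW
    rw [HW_eq] at hpw
    have hdis : Disjoint ((DW l H g c M : Finset Pt) : Set Pt) (hrow oo up p.1 (-p.2)) := by
      rw [Set.disjoint_left]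
      intro v hv hv2
      rw [Finset.mem_coe, mem_DW] at hv
      exact hv.2 ⟨p, hp, by rw [HW_eq]; exact hv2⟩
    have hL : ∀ v ∈ ((DW l H g c M : Finset Pt) : Set Pt), ip (v - oo) (rotL up) < ((3 * M : ℕ) : ℤ) := by
      intro v hv
      rw [Finset.mem_coe, mem_DW] at hv
      rw [sub_oo, ip_L]
      have := hv.1.2.2.2.1
      push_cast
      exact this
    have hsaw : Saw ((DW l H g c M : Finset Pt) : Set Pt) oo up t := saw_coe.2 harr
    rcases wall_wind (v0 := oo) (d0 := up) (by decide) (by omega) hdis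
      (fun v hv => DW_half v (Finset.mem_coe.1 hv)) hL hsaw hpw with h | h | h | h
    · constructor <;> omega
    · constructor <;> omega
    · constructor <;> omega
    · constructor <;> omega
  · right
    refine ⟨hD, ?_⟩
    have hex : t ∈ exits (DF H g c M) oo up := by
      rw [mem_exits]
      refine ⟨⟨fun i h1 h2 => mem_DF.2 (hs.mem i h1 h2), hs.inj⟩, fun h => hD (mem_DF.1 h)⟩
    have hw := (DF_good g hH hc hM).wind hex
    obtain ⟨⟨a1, a2, a3, a4, a5⟩, ⟨b1, b2, b3, b4⟩, ⟨c1, c2, c3⟩, ⟨e1, e2⟩, f1⟩ := dirs_distinct up (by decide)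
    rcases DD_exit hH hc hM hs hD with ⟨h1, h2⟩ | ⟨h1, h2⟩ | ⟨h1, h2⟩ | h1
    · left
      refine ⟨h1, h2, ?_⟩
      rw [h1] at hw
      rcases hw with h | h | h | h | h | h
      · exact absurd h.1 a5
      · exact absurd h.1 b4
      · exact absurd h.1 c3
      · exact absurd h.1 e2
      · exact absurd h.1 f1
      · exact h.2
    · right
      left
      refine ⟨h1, h2, ?_⟩
      rw [h1] at hw
      rcases hw with h | h | h | h | h | h
      · exact h.2
      · exact absurd h.1.symm a1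
      · exact absurd h.1.symm a2
      · exact absurd h.1.symm a3
      · exact absurd h.1.symm a4
      · exact absurd h.1.symm a5
    · right
      right
      left
      refine ⟨h1, h2, ?_⟩
      rw [h1] at hw
      rcases hw with h | h | h | h | h | h
      · exact absurd h.1 a1
      · exact h.2
      · exact absurd h.1.symm b1
      · exact absurd h.1.symm b2
      · exact absurd h.1.symm b3
      · exact absurd h.1.symm b4
    · right
      right
      right
      refine ⟨h1, ?_⟩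
      rw [h1] at hw
      cases g
      · have hn : nm false = rotR up := rfl
        rw [hn] at hw
        simp only [Bool.false_eq_true, if_false]
        rcases hw with h | h | h | h | h | h
        · exact absurd h.1 a2
        · exact absurd h.1 b1
        · exact h.2
        · exact absurd h.1.symm c1
        · exact absurd h.1.symm c2
        · exact absurd h.1.symm c3
      · have hn : nm true = rotR (rotR up) := rfl
        rw [hn] at hw
        simp only [if_true]
        rcases hw with h | h | h | h | h | h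
        · exact absurd h.1 a4
        · exact absurd h.1 b3
        · exact absurd h.1 c2
        · exact absurd h.1 e1
        · exact h.2
        · exact absurd h.1.symm f1

/-- the walk leaves through the gate -/
def Pg (H : ℕ) (g : Bool) (c M : ℕ) (t : List Bool) : Prop := tip oo up t ∉ DD H g c M ∧ dx up t t.length = nm g

/-- weight of the walks that leave through the gate -/
noncomputable def ZG (l : Set (ℕ × ℤ)) (H : ℕ) (g : Bool) (c M : ℕ) : ℝ := ZZ (DW l H g c M) oo up (Pg H g c M)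

lemma ZG_nonneg (l : Set (ℕ × ℤ)) (H : ℕ) (g : Bool) (c M : ℕ) : 0 ≤ ZG l H g c M := ZZ_nonneg _ _ _ _

/-- winding at the gate -/
def wg (g : Bool) : ℤ := if g then -2 else -1

lemma Pg_wind {l : Set (ℕ × ℤ)} {H : ℕ} {g : Bool} {c M : ℕ} (hH : 1 ≤ H) (hc : 1 ≤ c) (hM : 1 ≤ M) :
    ∀ t ∈ exits (DW l H g c M) oo up, Pg H g c M t → wind t = wg g := by
  intro t ht hP
  obtain ⟨n1, n2, n3⟩ : nm g ≠ -up ∧ nm g ≠ up ∧ nm g ≠ rotL up := by
    cases g <;> decide
  rcases DW_exit hH hc hM ht with h | ⟨_, h | h | h | h⟩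
  · exact absurd h.1 hP.1
  · exact absurd (hP.2.symm.trans h.1) n1
  · exact absurd (hP.2.symm.trans h.1) n2
  · exact absurd (hP.2.symm.trans h.1) n3
  · exact h.2

lemma DW_wind {l : Set (ℕ × ℤ)} {H : ℕ} {g : Bool} {c M : ℕ} (hH : 1 ≤ H) (hc : 1 ≤ c) (hM : 1 ≤ M) :
    ∀ t ∈ exits (DW l H g c M) oo up, -3 ≤ wind t ∧ wind t ≤ 3 := by
  intro t ht
  rcases DW_exit hH hc hM ht with h | ⟨_, h | h | h | h⟩
  · omega
  · omega
  · omega
  · omega
  · obtain ⟨_, h⟩ := h
    cases g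
    · simp at h
      omega
    · simp at h
      omega

/-- the top exits of the smaller domain are on a wall -/
def TopOK (l : Set (ℕ × ℤ)) (H H' : ℕ) (c : ℕ) : Prop := H = H' ∨ ∃ w : ℤ, (H, w) ∈ l ∧ 2 * (c : ℤ) - H ≤ w + 1

/-- exits of the smaller domain are exits of the larger domain -/
lemma exits_sub {l : Set (ℕ × ℤ)} {H H' : ℕ} {g' : Bool} {g : Bool} {c c' M : ℕ} (hH : 1 ≤ H) (hc : 1 ≤ c)
    (hM : 1 ≤ M) (hg : H = H' ∨ g = false) (hHH : H ≤ H') (hsub : DD H g c M ⊆ DD H' g' c' M) (htop : TopOK l H H' c)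
    {t : List Bool} (ht : t ∈ exits (DW l H g c M) oo up) (hP : ¬ Pg H g c M t) :
    t ∈ exits (DW l H' g' c' M) oo up ∧ (tip oo up t ∈ DD H' g' c' M → tip oo up t ∈ WW l) ∧
      (tip oo up t ∉ DD H' g' c' M → tip oo up t ∉ DD H g c M ∧ (dx up t t.length = -up ∨
      (dx up t t.length = up ∧ (tip oo up t).1 + 2 * (tip oo up t).2 = 3 * H + 2) ∨ dx up t t.length = rotL up)) := by
  obtain ⟨harr, hout⟩ := mem_exits.1 ht
  have harr' : IsArr (DW l H' g' c' M) oo up t := by
    refine ⟨fun i h1 h2 => ?_, harr.inj⟩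
    have := mem_DW.1 (harr.mem i h1 h2)
    exact mem_DW.2 ⟨hsub this.1, this.2⟩
  have key : (tip oo up t ∈ DD H' g' c' M → tip oo up t ∈ WW l) := by
    intro hin
    rcases DW_exit hH hc hM ht with h | ⟨hD, h | h | h | h⟩
    · exact h.2.1
    · exfalso
      have := hin.2.1
      omega
    · -- top
      rcases htop with h6 | ⟨w, hw, hwc⟩
      · exfalso
        have := hin.2.2.1
        rw [← h6] at this
        omega
      · refine ⟨(H, w), hw, ?_⟩
        refine ⟨Or.inl h.2.1, ?_⟩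
        show (tip oo up t).1 ≤ w
        rcases hg with hg | hg
        · exfalso
          have := hin.2.2.1
          rw [← hg] at this
          omega
        · have hlen : 1 ≤ t.length := by
            by_contra hcon
            have hz : t.length = 0 := by omega
            have ht0 : t = [] := List.length_eq_zero_iff.1 hz
            rw [ht0] at hD
            exact hD (up_mem hH hc hM)
          have hlast := (mem_DW.1 (harr.mem _ hlen le_rfl)).1
          have e := tip_eq (v0 := oo) (d0 := up) t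
          rw [h.1] at e
          have e1 : (tip oo up t).1 = (vx oo up t t.length).1 := by
            rw [e]
            show (vx oo up t t.length).1 + 0 = _
            ring
          have e2 : (tip oo up t).2 = (vx oo up t t.length).2 + 1 := by
            rw [e]
            rfl
          have h7 := hlast.2.2.2.2.1 hg
          have h8 := h.2.1
          omega
    · exfalso
      have := hin.2.2.2.1
      omega
    · exact absurd ⟨hD, h.1⟩ hP
  refine ⟨?_, key, ?_⟩
  · rw [mem_exits]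
    refine ⟨harr', ?_⟩
    intro hin
    have h1 := mem_DW.1 hin
    exact h1.2 (key h1.1)
  · intro hno
    have hD : tip oo up t ∉ DD H g c M := fun h => hno (hsub h)
    refine ⟨hD, ?_⟩
    rcases DW_exit hH hc hM ht with h | ⟨hD, h | h | h | h⟩
    · exact absurd h.1 hD
    · exact Or.inl h.1
    · exact Or.inr (Or.inl ⟨h.1, h.2.1⟩)
    · exact Or.inr (Or.inr h.1)
    · exact absurd ⟨hD, h.1⟩ hP

/-- comparison of two gates -/
theorem gate_step {l : Set (ℕ × ℤ)} {H H' : ℕ} {g g' : Bool} {c c' M : ℕ} (hH : 1 ≤ H) (hc : 1 ≤ c) (hc' : 1 ≤ c')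
    (hM : 1 ≤ M) (hg : H = H' ∨ g = false) (hHH : H ≤ H') (hsub : DD H g c M ⊆ DD H' g' c' M)
    (htop : TopOK l H H' c) {m : ℤ} (hm1 : 3 ≤ m) (hm2 : m ≤ 5) :
    Real.sin (((m + wg g' : ℤ) : ℝ) * (Real.pi / 8)) * ZG l H' g' c' M ≤
      Real.sin (((m + wg g : ℤ) : ℝ) * (Real.pi / 8)) * ZG l H g c M := by
  unfold ZG
  apply compare (by decide) DW_half _ _ _ _ (Pg_wind hH hc hM) (Pg_wind (by omega) hc' hM)
    (DW_wind (by omega) hc' hM) hm1 hm2
  · intro v hv
    rw [mem_DW] at hv ⊢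
    exact ⟨hsub hv.1, hv.2⟩
  · intro t ht hP
    obtain ⟨h1, h2, h3⟩ := exits_sub hH hc hM hg hHH hsub htop ht hP
    refine ⟨h1, ?_⟩
    rintro ⟨h4, h5⟩
    obtain ⟨n1, n2, n3⟩ : nm g' ≠ -up ∧ nm g' ≠ up ∧ nm g' ≠ rotL up := by
      cases g' <;> decide
    rcases (h3 h4).2 with h | h | h
    · exact n1 (h5.symm.trans h)
    · exact n2 (h5.symm.trans h.1)
    · exact n3 (h5.symm.trans h)

end Wall

end HexObs
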