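import Pool.Agent.PHW.Defs

/-!
Walls (half layers attached to the left end of the strip) and gates: geometry.
-/

set_option autoImplicit false

namespace HexObs

open Complex Finset ENNReal

namespace Wall

lemma ip_up (v : Pt) : ip v up = v.1 + 2 * v.2 := by
  unfold ip up
  ring

lemma ip_L (v : Pt) : ip v (rotL up) = v.2 - v.1 := by
  unfold ip up rotL
  ring

lemma ip_R (v : Pt) : ip v (rotR up) = 2 * v.1 + v.2 := by
  unfold ip up rotR
  ring

lemma ip_RR (v : Pt) : ip v (rotR (rotR up)) = v.1 - v.2 := by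
  unfold ip up rotR
  ring

lemma sub_oo (v : Pt) : v - oo = v := sub_zero v

lemma cl_cases (v : Pt) : IsHex oo up v ↔ (v.1 - v.2) % 3 = 0 ∨ (v.1 - v.2) % 3 = 2 := by
  have h1 : cl oo = 0 := by decide
  have h2 : cl up = ((2 : ℤ) : ZMod 3) := by decide
  unfold IsHex
  rw [h1, h2, zero_add]
  unfold cl
  rw [ZMod.intCast_eq_intCast_iff, show (0 : ZMod 3) = ((0 : ℤ) : ZMod 3) by simp, ZMod.intCast_eq_intCast_iff]
  unfold Int.ModEq
  push_cast
  omega

/-- the normal of the gate -/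
def nm (g : Bool) : Pt := if g then rotR (rotR up) else rotR up

/-- the domain below the level H on the left of a gate: g = false: the gate leans to the left,
g = true: it leans to the right; M bounds the domain on the left -/
def DD (H : ℕ) (g : Bool) (c M : ℕ) : Set Pt :=
  {v | IsHex oo up v ∧ 0 < v.1 + 2 * v.2 ∧ v.1 + 2 * v.2 < 3 * H + 2 ∧ v.2 - v.1 < 3 * M ∧
    (g = false → 2 * v.1 + v.2 < 3 * c) ∧ (g = true → v.1 - v.2 < 3 * c - 1)}

lemma DD_finite (H : ℕ) (g : Bool) (c M : ℕ) : (DD H g c M).Finite := by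
  apply Set.Finite.subset (((Set.finite_Icc (-(3 * H + 3 * M + 3 * c + 10 : ℤ)) (3 * H + 3 * M + 3 * c + 10)).prod
    (Set.finite_Icc (-(3 * H + 3 * M + 3 * c + 10 : ℤ)) (3 * H + 3 * M + 3 * c + 10))))
  rintro ⟨a, b⟩ ⟨_, h1, h2, h3, h4, h5⟩
  simp only at h1 h2 h3 h4 h5
  rw [Set.mem_prod, Set.mem_Icc, Set.mem_Icc]
  simp only
  cases g
  · have := h4 rfl
    refine ⟨⟨?_, ?_⟩, ?_, ?_⟩ <;> omega
  · have := h5 rfl
    refine ⟨⟨?_, ?_⟩, ?_, ?_⟩ <;> omega

/-- base point of the gate -/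
def gb (g : Bool) (c : ℕ) : Pt := if g then (2 * (c : ℤ), 1 - (c : ℤ)) else ((c : ℤ), (c : ℤ))

/-- the sides of the domain -/
def DS (H : ℕ) (g : Bool) (c M : ℕ) : Set (Pt × Pt) :=
  {(oo, -up), (((-(H : ℤ), 2 * (H : ℤ) + 1) : Pt), up), (((-(M : ℤ), 2 * (M : ℤ)) : Pt), rotL up), (gb g c, nm g)}

lemma int_cast_cl (v : Pt) (n : ℤ) (h : (3 : ℤ) ∣ v.1 - v.2 - n) : cl v = ((n : ℤ) : ZMod 3) := by
  unfold cl
  rw [ZMod.intCast_eq_intCast_iff]
  unfold Int.ModEq
  omega

lemma cl_up : cl up = ((2 : ℤ) : ZMod 3) := by decide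

lemma cl_oo : cl oo = ((0 : ℤ) : ZMod 3) := by decide

lemma DS_side (H : ℕ) (g : Bool) (c M : ℕ) : ∀ s ∈ DS H g c M, IsSide oo up s := by
  have d1 : up ∈ dirs := by decide
  have d2 : rotL up ∈ dirs := by decide
  have d3 : nm false ∈ dirs := by decide
  have d4 : nm true ∈ dirs := by decide
  have c2 : cl (rotL up) = - cl up := by decide
  have c3 : cl (nm false) = - cl up := by decide
  have c4 : cl (nm true) = cl up := by decide
  intro s hs
  rcases hs with rfl | rfl | rfl | rfl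
  · exact ⟨by decide, Or.inl ⟨rfl, by decide⟩⟩
  · refine ⟨d1, Or.inr ⟨?_, rfl⟩⟩
    rw [cl_oo, cl_up, int_cast_cl _ 2 (by simp only []; omega)]
    simp
  · refine ⟨d2, Or.inl ⟨?_, c2⟩⟩
    rw [cl_oo, int_cast_cl _ 0 (by simp only []; omega)]
  · cases g
    · refine ⟨d3, Or.inl ⟨?_, c3⟩⟩
      rw [cl_oo, int_cast_cl _ 0 (by simp only [gb]; simp)]
    · refine ⟨d4, Or.inr ⟨?_, c4⟩⟩
      rw [cl_oo, cl_up, int_cast_cl _ 2 (by simp only [gb]; simp; omega)]
      simp

lemma DS_iff (H : ℕ) (g : Bool) (c M : ℕ) (v : Pt) :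
    v ∈ DD H g c M ↔ IsHex oo up v ∧ ∀ s ∈ DS H g c M, 0 < ip (s.1 - v) s.2 := by
  have e1 : ip (oo - v) (-up) = v.1 + 2 * v.2 := by
    rw [ip_neg_right, ip_up]
    simp only [oo, Prod.fst_sub, Prod.snd_sub]
    ring
  have e2 : ip (((-(H : ℤ), 2 * (H : ℤ) + 1) : Pt) - v) up = 3 * H + 2 - (v.1 + 2 * v.2) := by
    rw [ip_up]
    simp only [Prod.fst_sub, Prod.snd_sub]
    ring
  have e3 : ip (((-(M : ℤ), 2 * (M : ℤ)) : Pt) - v) (rotL up) = 3 * M - (v.2 - v.1) := by
    rw [ip_L]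
    simp only [Prod.fst_sub, Prod.snd_sub]
    ring
  have e4 : ip (gb g c - v) (nm g) = if g then 3 * c - 1 - (v.1 - v.2) else 3 * c - (2 * v.1 + v.2) := by
    cases g
    · show ip (((c : ℤ), (c : ℤ)) - v) (rotR up) = _
      rw [ip_R]
      simp only [Prod.fst_sub, Prod.snd_sub]
      simp
      ring
    · show ip ((2 * (c : ℤ), 1 - (c : ℤ)) - v) (rotR (rotR up)) = _
      rw [ip_RR]
      simp only [Prod.fst_sub, Prod.snd_sub]
      simp
      ring
  unfold DD DS
  constructor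
  · rintro ⟨h1, h2, h3, h4, h5, h6⟩
    refine ⟨h1, ?_⟩
    intro s hs
    rcases hs with rfl | rfl | rfl | rfl
    · show 0 < ip (oo - v) (-up)
      rw [e1]
      exact h2
    · show 0 < ip (((-(H : ℤ), 2 * (H : ℤ) + 1) : Pt) - v) up
      rw [e2]
      linarith
    · show 0 < ip (((-(M : ℤ), 2 * (M : ℤ)) : Pt) - v) (rotL up)
      rw [e3]
      linarith
    · show 0 < ip (gb g c - v) (nm g)
      rw [e4]
      cases g
      · have := h5 rfl
        simp
        linarith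
      · have := h6 rfl
        simp
        linarith
  · rintro ⟨h1, h2⟩
    have a1 := h2 (oo, -up) (by simp)
    have a2 := h2 (((-(H : ℤ), 2 * (H : ℤ) + 1) : Pt), up) (by simp)
    have a3 := h2 (((-(M : ℤ), 2 * (M : ℤ)) : Pt), rotL up) (by simp)
    have a4 := h2 (gb g c, nm g) (by simp)
    simp only [] at a1 a2 a3 a4
    rw [e1] at a1
    rw [e2] at a2
    rw [e3] at a3
    rw [e4] at a4
    refine ⟨h1, a1, by linarith, by linarith, ?_, ?_⟩
    · rintro rfl
      simp at a4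
      linarith
    · rintro rfl
      simp at a4
      linarith

/-- the same as a finite set -/
noncomputable def DF (H : ℕ) (g : Bool) (c M : ℕ) : Finset Pt := (DD_finite H g c M).toFinset

lemma mem_DF {H : ℕ} {g : Bool} {c M : ℕ} {v : Pt} : v ∈ DF H g c M ↔ v ∈ DD H g c M := by
  unfold DF
  rw [Set.Finite.mem_toFinset]

lemma DF_coe (H : ℕ) (g : Bool) (c M : ℕ) : ((DF H g c M : Finset Pt) : Set Pt) = DD H g c M := by
  unfold DF
  rw [Set.Finite.coe_toFinset]

lemma up_mem {H : ℕ} {g : Bool} {c M : ℕ} (hH : 1 ≤ H) (hc : 1 ≤ c) (hM : 1 ≤ M) : oo + up ∈ DD H g c M := by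
  refine ⟨Or.inr (cl_add oo up), ?_, ?_, ?_, ?_, ?_⟩
  · decide
  · show (0 + 0 : ℤ) + 2 * (0 + 1) < 3 * H + 2
    omega
  · show (0 + 1 : ℤ) - (0 + 0) < 3 * M
    omega
  · intro _
    show 2 * (0 + 0 : ℤ) + (0 + 1) < 3 * c
    omega
  · intro _
    show (0 + 0 : ℤ) - (0 + 1) < 3 * c - 1
    omega

lemma DF_good {H : ℕ} (g : Bool) {c M : ℕ} (hH : 1 ≤ H) (hc : 1 ≤ c) (hM : 1 ≤ M) : GoodDom (DF H g c M) oo up := by
  apply polygon_good (by decide) (DS H g c M) (DS_side H g c M) (by simp [DS])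
  · intro v
    rw [mem_DF, DS_iff]
  · rw [mem_DF]
    exact up_mem hH hc hM

/-- the last step of a walk that leaves the domain -/
lemma DD_exit {H : ℕ} {g : Bool} {c M : ℕ} (hH : 1 ≤ H) (hc : 1 ≤ c) (hM : 1 ≤ M) {t : List Bool}
    (hs : Saw (DD H g c M) oo up t) (hout : tip oo up t ∉ DD H g c M) :
    (dx up t t.length = -up ∧ (tip oo up t).1 + 2 * (tip oo up t).2 = 0) ∨
    (dx up t t.length = up ∧ (tip oo up t).1 + 2 * (tip oo up t).2 = 3 * H + 2) ∨
    (dx up t t.length = rotL up ∧ (tip oo up t).2 - (tip oo up t).1 = 3 * M) ∨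
    dx up t t.length = nm g := by
  have hlen : 1 ≤ t.length := by
    by_contra hcon
    have hz : t.length = 0 := by omega
    have : t = [] := List.length_eq_zero_iff.1 hz
    rw [this] at hout
    exact hout (up_mem hH hc hM)
  have hlast : vx oo up t t.length ∈ DD H g c M := hs.mem _ hlen le_rfl
  have hhex := tip_hex oo up t
  have hvhex := vx_hex oo up t t.length
  have hdm : dx up t t.length ∈ dirs := ds_mem (by decide) _
  have hex : ∃ s ∈ DS H g c M, ip (s.1 - tip oo up t) s.2 ≤ 0 := by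
    by_contra hcon
    push Not at hcon
    exact hout ((DS_iff H g c M _).2 ⟨hhex, hcon⟩)
  obtain ⟨s, hsS, hsle⟩ := hex
  obtain ⟨s1, s2, s3⟩ := side_step (DS_side H g c M s hsS) hvhex hdm (((DS_iff H g c M _).1 hlast).2 s hsS)
    (by rwa [← tip_eq])
  rw [← tip_eq] at s3
  rcases hsS with rfl | rfl | rfl | rfl
  · left
    refine ⟨s1, ?_⟩
    simp only [] at s3
    rw [ip_neg_right, ip_up] at s3
    simp only [oo, Prod.fst_sub, Prod.snd_sub] at s3 ⊢
    linarith
  · right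
    left
    refine ⟨s1, ?_⟩
    simp only [] at s3
    rw [ip_up] at s3
    simp only [Prod.fst_sub, Prod.snd_sub] at s3 ⊢
    linarith
  · right
    right
    left
    refine ⟨s1, ?_⟩
    simp only [] at s3
    rw [ip_L] at s3
    simp only [Prod.fst_sub, Prod.snd_sub] at s3 ⊢
    linarith
  · right
    right
    right
    exact s1

end Wall

end HexObs
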