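import Pool.Agent.HexWall.Tube

/-!
The slit tube theorem: bridges that avoid one half row in each of several scales.
-/

set_option autoImplicit false

namespace HexObs

open Complex Finset ENNReal

namespace Wall

/-- the walls of the scales in H, from tube to tube -/
theorem chainH {l : Set (ℕ × ℤ)} {M : ℕ} (hM : 1 ≤ M) (H : Finset ℕ) (r : ℕ → ℕ) {K k0 : ℕ} (hK : 1 ≤ K)
    (hk0 : k0 ∈ H) (hmin : ∀ k ∈ H, k0 ≤ k) (hr : ∀ k ∈ H, 1 ≤ r k ∧ 2 ^ (k - 1) ≤ r k ∧ r k < 2 ^ k)
    (hl : ∀ k ∈ H, (r k, (6 * K * 2 ^ k : ℤ)) ∈ l) (n : ℕ) (hn : k0 ≤ n) :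
    ∃ p ∈ H, p ≤ n ∧ (∀ k ∈ H, k ≤ n → k ≤ p) ∧
      ZG l (r p) false (K * r k0 + K * ∑ k ∈ H.filter (fun k => k ≤ n), r k) M ≤
        (3 / 5) ^ (K * (H.filter (fun k => k ≤ n)).card) * ZG l (r k0) false (K * r k0) M := by
  have hr0 := hr k0 hk0
  have hc0 : 1 ≤ K * r k0 := Nat.mul_pos (by omega) (by omega)
  induction n, hn using Nat.le_induction with
  | base =>
    have e : H.filter (fun k => k ≤ k0) = {k0} := by
      ext k
      rw [Finset.mem_filter, Finset.mem_singleton]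
      constructor
      · rintro ⟨h1, h2⟩
        have := hmin k h1
        omega
      · rintro rfl
        exact ⟨hk0, le_rfl⟩
    refine ⟨k0, hk0, le_rfl, fun k _ h => h, ?_⟩
    rw [e, Finset.sum_singleton, Finset.card_singleton, mul_one]
    exact periods l hr0.1 hc0 hM K
  | succ n hn ih =>
    obtain ⟨p, hp, hpn, hpm, hZ⟩ := ih
    by_cases hin : n + 1 ∈ H
    · have e : H.filter (fun k => k ≤ n + 1) = insert (n + 1) (H.filter (fun k => k ≤ n)) := by
        ext k
        rw [Finset.mem_filter, Finset.mem_insert, Finset.mem_filter]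
        constructor
        · rintro ⟨h1, h2⟩
          rcases Nat.lt_or_ge n k with h | h
          · left
            omega
          · exact Or.inr ⟨h1, h⟩
        · rintro (rfl | ⟨h1, h2⟩)
          · exact ⟨hin, le_rfl⟩
          · exact ⟨h1, by omega⟩
      have hnot : n + 1 ∉ H.filter (fun k => k ≤ n) := by
        rw [Finset.mem_filter]
        omega
      refine ⟨n + 1, hin, le_rfl, fun k _ h => h, ?_⟩
      rw [e, Finset.sum_insert hnot, Finset.card_insert_of_notMem hnot]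
      have hrp := hr p hp
      have hrn := hr (n + 1) hin
      rw [Nat.add_sub_cancel] at hrn
      have h2p : 2 ^ p ≤ 2 ^ n := Nat.pow_le_pow_right (by norm_num) hpn
      -- bound for the gate
      have hsum : ∑ k ∈ H.filter (fun k => k ≤ n), r k ≤ 2 * 2 ^ p := by
        have h1 : ∑ k ∈ H.filter (fun k => k ≤ n), r k ≤ ∑ k ∈ Finset.range (p + 1), 2 ^ k := by
          apply (Finset.sum_le_sum (fun k hk => (hr k (Finset.mem_filter.1 hk).1).2.2.le)).trans
          apply Finset.sum_le_sum_of_subset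
          intro k hk
          rw [Finset.mem_filter] at hk
          rw [Finset.mem_range]
          have := hpm k hk.1 hk.2
          omega
        have h2 : ∑ k ∈ Finset.range (p + 1), 2 ^ k = 2 ^ (p + 1) - 1 := by
          have := Nat.geomSum_eq (le_refl 2) (p + 1)
          simpa using this
        rw [h2] at h1
        rw [pow_succ] at h1
        omega
      have hk0p : 2 ^ k0 ≤ 2 ^ p := Nat.pow_le_pow_right (by norm_num) (hmin p hp)
      have htop : TopOK l (r p) (r (n + 1)) (K * r k0 + K * ∑ k ∈ H.filter (fun k => k ≤ n), r k) := by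
        right
        refine ⟨_, hl p hp, ?_⟩
        have h3 : K * r k0 + K * ∑ k ∈ H.filter (fun k => k ≤ n), r k ≤ K * (3 * 2 ^ p) := by
          rw [← Nat.mul_add]
          apply Nat.mul_le_mul_left
          omega
        have h4 : ((K * r k0 + K * ∑ k ∈ H.filter (fun k => k ≤ n), r k : ℕ) : ℤ) ≤ ((K * (3 * 2 ^ p) : ℕ) : ℤ) := by
          exact_mod_cast h3
        push_cast at h4 ⊢
        have h5 : (0 : ℤ) ≤ r p := by positivity
        linarith
      have h1 := corridor (l := l) hrp.1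
        (by omega : 1 ≤ K * r k0 + K * ∑ k ∈ H.filter (fun k => k ≤ n), r k) hM (by omega : r p ≤ r (n + 1)) htop
      have h2 := periods l hrn.1 (by omega : 1 ≤ K * r k0 + K * ∑ k ∈ H.filter (fun k => k ≤ n), r k) hM K
      have e2 : K * r k0 + K * (r (n + 1) + ∑ k ∈ H.filter (fun k => k ≤ n), r k) =
          K * r k0 + K * ∑ k ∈ H.filter (fun k => k ≤ n), r k + K * r (n + 1) := by ring
      rw [e2, mul_add, mul_one, pow_add]
      have h4 : (0 : ℝ) ≤ (3 / 5) ^ K := by positivity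
      have h5 := mul_le_mul_of_nonneg_left (h1.trans hZ) h4
      linarith
    · have e : H.filter (fun k => k ≤ n + 1) = H.filter (fun k => k ≤ n) := by
        ext k
        rw [Finset.mem_filter, Finset.mem_filter]
        constructor
        · rintro ⟨h1, h2⟩
          refine ⟨h1, ?_⟩
          by_contra hcon
          have : k = n + 1 := by omega
          rw [this] at h1
          exact hin h1
        · rintro ⟨h1, h2⟩
          exact ⟨h1, by omega⟩
      rw [e]
      refine ⟨p, hp, by omega, ?_, hZ⟩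
      intro k hk hkn
      apply hpm k hk
      by_contra hcon
      have : k = n + 1 := by omega
      rw [this] at hk
      exact hin hk

lemma ZZ_gf (Ω : Finset Pt) (v0 d0 : Pt) (P : List Bool → Prop) :
    ENNReal.ofReal (ZZ Ω v0 d0 P) = gf {t | t ∈ exits Ω v0 d0 ∧ P t} := by
  classical
  unfold ZZ
  rw [← gf_finset]
  congr 1
  ext t
  rw [Finset.mem_coe, Finset.mem_filter]
  exact Iff.rfl

/-- the first gate -/
lemma ZG_sc (l : Set (ℕ × ℤ)) {H c M : ℕ} (hH : 1 ≤ H) (hc : 1 ≤ c) (hM : 1 ≤ M) :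
    ENNReal.ofReal (ZG l H false c M) ≤ sc H c := by
  unfold ZG sc
  rw [ZZ_gf]
  apply gf_mono
  intro t ht
  rw [Set.mem_ofPred_eq, mem_exits] at ht
  obtain ⟨⟨harr, hout⟩, hP1, hP2⟩ := ht
  have hsub : DD H false c M ⊆ corner H c := by
    intro v hv
    obtain ⟨a1, a2, a3, a4, a5, a6⟩ := hv
    refine ⟨⟨a1, ?_, ?_⟩, ?_⟩
    · rw [sub_oo, ip_up]
      exact a2
    · rw [sub_oo, ip_up]
      exact a3
    · rw [sub_oo, ip_R]
      exact a5 rfl
  have hs := saw_DD harr
  refine ⟨hs.mono hsub, ?_, hP2⟩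
  intro hin
  apply hP1
  have hlen : 1 ≤ t.length := by
    by_contra hcon
    have hz : t.length = 0 := by omega
    have ht0 : t = [] := List.length_eq_zero_iff.1 hz
    rw [ht0] at hP1
    exact hP1 (up_mem hH hc hM)
  have hlast := hs.mem _ hlen le_rfl
  have e := tip_eq (v0 := oo) (d0 := up) t
  rw [hP2] at e
  have e1 : (tip oo up t).1 = (vx oo up t t.length).1 + 1 := by
    rw [e]
    rfl
  have e2 : (tip oo up t).2 = (vx oo up t t.length).2 := by
    rw [e]
    show (vx oo up t t.length).2 + 0 = _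
    ring
  obtain ⟨⟨b1, b2, b3⟩, b4⟩ := hin
  rw [sub_oo, ip_up] at b2 b3
  rw [sub_oo, ip_R] at b4
  refine ⟨b1, b2, b3, ?_, fun _ => b4, by simp⟩
  have := hlast.2.2.2.1
  omega

/-- every vertex of t in the layer y is on the right of w -/
def Clr (t : List Bool) (y : ℕ) (w : ℤ) : Prop :=
  ∀ i, i ≤ t.length → (lev t i = 3 * y - 1 ∨ lev t i = 3 * y) → w < lat t i

lemma lev_eq (t : List Bool) (i : ℕ) : lev t i = (vx oo up t i).1 + 2 * (vx oo up t i).2 := by
  unfold lev
  rw [ip_up]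

lemma lat_eq (t : List Bool) (i : ℕ) : lat t i = (vx oo up t i).1 := by
  unfold lat cross up
  ring

/-- bridges that avoid all walls, in the finite domains -/
lemma mem_exits_of {l : Set (ℕ × ℤ)} {T n : ℕ} {t : List Bool} (ht : t ∈ Brd T)
    (hav : ∀ i, 1 ≤ i → i ≤ t.length → vx oo up t i ∉ WW l) (hn : t.length ≤ n) :
    t ∈ exits (DW l T false (n + 1) (n + 1)) oo up ∧
      (dx up t t.length = up ∧ (tip oo up t).1 + 2 * (tip oo up t).2 = 3 * T + 2) := by
  rw [mem_Brd] at ht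
  obtain ⟨h1, h2, h3, h4⟩ := ht
  have htip : (tip oo up t).1 + 2 * (tip oo up t).2 = 3 * T + 2 := by
    rw [tip_eq, h3]
    have := lev_eq t t.length
    rw [h4] at this
    show (vx oo up t t.length).1 + 0 + 2 * ((vx oo up t t.length).2 + 1) = _
    linarith
  -- the coordinates grow at most by one
  have hstep : ∀ i : ℕ, -(i : ℤ) ≤ (vx oo up t i).1 ∧ (vx oo up t i).1 ≤ i ∧ -(i : ℤ) ≤ (vx oo up t i).2 ∧
      (vx oo up t i).2 ≤ i ∧ -(i : ℤ) ≤ (vx oo up t i).1 + (vx oo up t i).2 ∧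
      (vx oo up t i).1 + (vx oo up t i).2 ≤ i := by
    intro i
    induction i with
    | zero =>
      have : vx oo up t 0 = (0, 0) := rfl
      rw [this]
      simp
    | succ i ih =>
      have e := vx_succ oo up t i
      have hd : ∀ d ∈ dirs, -1 ≤ d.1 ∧ d.1 ≤ 1 ∧ -1 ≤ d.2 ∧ d.2 ≤ 1 ∧ -1 ≤ d.1 + d.2 ∧ d.1 + d.2 ≤ 1 := by decide
      have := hd _ (dx_mem (by decide : up ∈ dirs) t i)
      rw [e]
      simp only [Prod.fst_add, Prod.snd_add]
      push_cast
      omega
  refine ⟨?_, h3, htip⟩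
  rw [mem_exits]
  refine ⟨⟨fun i hi hil => ?_, h2⟩, ?_⟩
  · rw [mem_DW]
    refine ⟨⟨vx_hex oo up t i, ?_, ?_, ?_, ?_, by simp⟩, hav i hi hil⟩
    · rw [← lev_eq]
      exact (h1 i hi hil).1
    · rw [← lev_eq]
      have := (h1 i hi hil).2
      omega
    · have := hstep i
      push_cast
      omega
    · intro _
      have := hstep i
      push_cast
      omega
  · intro hin
    have := (mem_DW.1 hin).1.2.2.1
    omega

/-- THE SLIT TUBE THEOREM -/
theorem slit_tube {T : ℕ} (H : Finset ℕ) (y : ℕ → ℕ) {K k0 : ℕ} (hK : 1 ≤ K)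
    (hk0 : k0 ∈ H) (hmin : ∀ k ∈ H, k0 ≤ k) (h1 : 1 ≤ k0) (hy : ∀ k ∈ H, 2 ^ (k - 1) < y k ∧ y k ≤ 2 ^ k)
    (hT : ∀ k ∈ H, y k ≤ T) :
    gf {t | t ∈ Brd T ∧ ∀ k ∈ H, Clr t (y k) (6 * K * 2 ^ k)} ≤
      ENNReal.ofReal ((3 / 5) ^ (K * H.card)) * sc (y k0 - 1) (K * (y k0 - 1)) := by
  classical
  set l : Set (ℕ × ℤ) := {p | ∃ k ∈ H, p = (y k - 1, (6 * K * 2 ^ k : ℤ))} with hl
  have hpow : ∀ k, 1 ≤ k → 1 ≤ 2 ^ (k - 1) := fun k _ => Nat.one_le_two_pow
  have hr : ∀ k ∈ H, 1 ≤ y k - 1 ∧ 2 ^ (k - 1) ≤ y k - 1 ∧ y k - 1 < 2 ^ k := by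
    intro k hk
    have a1 := hy k hk
    have a2 := hpow k (h1.trans (hmin k hk))
    omega
  -- the last scale
  have hkT : ∀ k ∈ H, k ≤ T + k0 := by
    intro k hk
    have a1 := hy k hk
    have a2 := hT k hk
    have a3 : k - 1 < 2 ^ (k - 1) := Nat.lt_two_pow_self
    omega
  have hfil : H.filter (fun k => k ≤ T + k0) = H := Finset.filter_true_of_mem hkT
  have hr0 := hr k0 hk0
  have key : ∀ n, gf {t | (t ∈ Brd T ∧ ∀ k ∈ H, Clr t (y k) (6 * K * 2 ^ k)) ∧ t.length ≤ n} ≤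
      ENNReal.ofReal ((3 / 5) ^ (K * H.card)) * sc (y k0 - 1) (K * (y k0 - 1)) := by
    intro n
    -- a large domain
    set c := K * (y k0 - 1) + K * ∑ k ∈ H, (y k - 1) with hc
    have hc0 : 1 ≤ K * (y k0 - 1) := Nat.mul_pos (by omega) (by omega)
    set N := n + c with hN
    obtain ⟨p, hp, hpn, hpm, hZ⟩ := chainH (l := l) (M := N + 1) (by omega) H (fun k => y k - 1) hK hk0 hmin hr
      (fun k hk => ⟨k, hk, rfl⟩) (T + k0) (by omega)
    rw [hfil] at hZ
    have hrp := hr p hp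
    have hTp := hT p hp
    have hyp := hy p hp
    have hsum : ∑ k ∈ H, (y k - 1) ≤ 2 * 2 ^ p := by
      have g1 : ∑ k ∈ H, (y k - 1) ≤ ∑ k ∈ Finset.range (p + 1), 2 ^ k := by
        apply (Finset.sum_le_sum (fun k hk => (hr k hk).2.2.le)).trans
        apply Finset.sum_le_sum_of_subset
        intro k hk
        rw [Finset.mem_range]
        have := hpm k hk (hkT k hk)
        omega
      have g2 : ∑ k ∈ Finset.range (p + 1), 2 ^ k = 2 ^ (p + 1) - 1 := by
        have := Nat.geomSum_eq (le_refl 2) (p + 1)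
        simpa using this
      rw [g2] at g1
      rw [pow_succ] at g1
      omega
    have hk0p : 2 ^ k0 ≤ 2 ^ p := Nat.pow_le_pow_right (by norm_num) (hmin p hp)
    have htop : TopOK l (y p - 1) T c := by
      right
      refine ⟨_, ⟨p, hp, rfl⟩, ?_⟩
      have g3 : c ≤ K * (3 * 2 ^ p) := by
        rw [hc, ← Nat.mul_add]
        apply Nat.mul_le_mul_left
        omega
      have g4 : (c : ℤ) ≤ ((K * (3 * 2 ^ p) : ℕ) : ℤ) := by exact_mod_cast g3
      push_cast at g4 ⊢
      have g5 : (0 : ℤ) ≤ ((y p - 1 : ℕ) : ℤ) := by positivity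
      linarith
    have hlast := last (l := l) (H := y p - 1) (T := T) (c := c) (C := N + 1) (M := N + 1) hrp.1 (by omega)
      (by omega) (by omega) (by omega) htop
    have hZT : ZT l T (N + 1) (N + 1) ≤ (3 / 5) ^ (K * H.card) * ZG l (y k0 - 1) false (K * (y k0 - 1)) (N + 1) :=
      hlast.trans hZ
    have hfin : gf {t | (t ∈ Brd T ∧ ∀ k ∈ H, Clr t (y k) (6 * K * 2 ^ k)) ∧ t.length ≤ n} ≤
        ENNReal.ofReal (ZT l T (N + 1) (N + 1)) := by
      unfold ZT
      rw [ZZ_gf]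
      apply gf_mono
      rintro t ⟨⟨ht1, ht2⟩, ht3⟩
      refine mem_exits_of ht1 ?_ (by omega)
      rintro i hi hil ⟨q, ⟨k, hk, rfl⟩, hq1, hq2⟩
      simp only at hq1 hq2
      have a1 := (hr k hk).1
      have a2 := hy k hk
      have a3 : ((y k - 1 : ℕ) : ℤ) = (y k : ℤ) - 1 := by omega
      rw [a3, ← lev_eq] at hq1
      have a4 := ht2 k hk i hil (by omega)
      rw [lat_eq] at a4
      linarith
    refine hfin.trans ((ENNReal.ofReal_le_ofReal hZT).trans ?_)
    rw [ENNReal.ofReal_mul (by positivity)]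
    gcongr
    exact ZG_sc l hr0.1 hc0 (by omega)
  apply gf_le_of_mono_union (fun n => {t | (t ∈ Brd T ∧ ∀ k ∈ H, Clr t (y k) (6 * K * 2 ^ k)) ∧ t.length ≤ n})
  · intro a b hab t ht
    exact ⟨ht.1, le_trans ht.2 hab⟩
  · intro t ht
    rw [Set.mem_iUnion]
    exact ⟨t.length, ht, le_rfl⟩
  · exact key

end Wall

end HexObs
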