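import Pool.Agent.HexWall.Gate

/-!
The slit tube theorem.
-/

set_option autoImplicit false

namespace HexObs

open Complex Finset ENNReal

namespace Wall

lemma dd_level {H : ℕ} {g : Bool} {c M : ℕ} {v : Pt} (h : v ∈ DD H g c M) :
    2 ≤ v.1 + 2 * v.2 ∧ v.1 + 2 * v.2 ≤ 3 * H := by
  obtain ⟨h1, h2, h3, _⟩ := h
  rw [cl_cases] at h1
  omega

lemma sub_ft (H c M : ℕ) : DD H false c M ⊆ DD H true c M := by
  intro v hv
  have h1 := dd_level hv
  obtain ⟨a1, a2, a3, a4, a5, a6⟩ := hv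
  refine ⟨a1, a2, a3, a4, by simp, ?_⟩
  intro _
  have := a5 rfl
  omega

lemma sub_tf (H c M : ℕ) : DD H true c M ⊆ DD H false (c + H) M := by
  intro v hv
  have h1 := dd_level hv
  obtain ⟨a1, a2, a3, a4, a5, a6⟩ := hv
  refine ⟨a1, a2, a3, a4, ?_, by simp⟩
  intro _
  have := a6 rfl
  push_cast
  omega

lemma sub_ff {H H' c c' M : ℕ} (hH : H ≤ H') (hc : c ≤ c') : DD H false c M ⊆ DD H' false c' M := by
  intro v hv
  obtain ⟨a1, a2, a3, a4, a5, a6⟩ := hv
  refine ⟨a1, a2, ?_, a4, ?_, by simp⟩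
  · omega
  · intro _
    have := a5 rfl
    omega

lemma trig8 : Real.sin (Real.pi / 4) = 2 * Real.sin (Real.pi / 8) * Real.cos (Real.pi / 8) ∧
    Real.sin (3 * Real.pi / 8) = Real.cos (Real.pi / 8) ∧ 0 < Real.sin (Real.pi / 8) ∧
    5 / 3 ≤ 2 * Real.cos (Real.pi / 8) ^ 2 := by
  have hpi := Real.pi_pos
  refine ⟨?_, ?_, ?_, ?_⟩
  · rw [← Real.sin_two_mul]
    congr 1
    ring
  · rw [← Real.cos_pi_div_two_sub]
    congr 1
    ring
  · apply Real.sin_pos_of_pos_of_lt_pi <;> linarith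
  · have h1 : Real.cos (Real.pi / 4) = 2 * Real.cos (Real.pi / 8) ^ 2 - 1 := by
      rw [← Real.cos_two_mul]
      congr 1
      ring
    rw [Real.cos_pi_div_four] at h1
    have h2 : (4 : ℝ) / 3 ≤ Real.sqrt 2 := by
      apply Real.le_sqrt_of_sq_le
      norm_num
    linarith

/-- one period of gates -/
theorem period (l : Set (ℕ × ℤ)) {H c M : ℕ} (hH : 1 ≤ H) (hc : 1 ≤ c) (hM : 1 ≤ M) :
    ZG l H false (c + H) M ≤ 3 / 5 * ZG l H false c M := by
  obtain ⟨t1, t2, t3, t4⟩ := trig8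
  have h1 := gate_step (l := l) (m := 5) hH hc hc hM (Or.inl rfl) le_rfl (sub_ft H c M) (Or.inl rfl)
    (by norm_num) (by norm_num)
  have h2 := gate_step (l := l) (m := 3) hH hc (by omega : 1 ≤ c + H) hM (Or.inl rfl) le_rfl (sub_tf H c M)
    (Or.inl rfl) (by norm_num) (by norm_num)
  have e1 : Real.sin (((5 + wg true : ℤ) : ℝ) * (Real.pi / 8)) = Real.cos (Real.pi / 8) := by
    rw [← t2]
    congr 1
    simp only [wg, if_true]
    push_cast
    ring
  have e2 : Real.sin (((5 + wg false : ℤ) : ℝ) * (Real.pi / 8)) = 1 := by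
    rw [← Real.sin_pi_div_two]
    congr 1
    simp only [wg]
    simp
    ring
  have e3 : Real.sin (((3 + wg false : ℤ) : ℝ) * (Real.pi / 8)) = 2 * Real.sin (Real.pi / 8) * Real.cos (Real.pi / 8) := by
    rw [← t1]
    congr 1
    simp only [wg]
    simp
    ring
  have e4 : Real.sin (((3 + wg true : ℤ) : ℝ) * (Real.pi / 8)) = Real.sin (Real.pi / 8) := by
    congr 1
    simp only [wg, if_true]
    push_cast
    ring
  rw [e1, e2] at h1
  rw [e3, e4] at h2
  have hc0 := cos_pos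
  set s := Real.sin (Real.pi / 8)
  set k := Real.cos (Real.pi / 8)
  set Z := ZG l H false c M
  set Z' := ZG l H true c M
  set Z'' := ZG l H false (c + H) M
  have hZ'' : 0 ≤ Z'' := ZG_nonneg _ _ _ _ _
  have h3 : 2 * k * Z'' ≤ Z' := by
    by_contra hcon
    push Not at hcon
    have := mul_lt_mul_of_pos_left hcon t3
    linarith
  have h4 : 2 * k ^ 2 * Z'' ≤ Z := by
    have := mul_le_mul_of_nonneg_left h3 hc0.le
    nlinarith
  have h5 : 5 / 3 * Z'' ≤ Z := by
    have := mul_le_mul_of_nonneg_right t4 hZ''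
    linarith
  linarith

/-- many periods -/
theorem periods (l : Set (ℕ × ℤ)) {H c M : ℕ} (hH : 1 ≤ H) (hc : 1 ≤ c) (hM : 1 ≤ M) (k : ℕ) :
    ZG l H false (c + k * H) M ≤ (3 / 5) ^ k * ZG l H false c M := by
  induction k with
  | zero => simp
  | succ k ih =>
    have h1 := period l hH (by omega : 1 ≤ c + k * H) hM
    have e : c + (k + 1) * H = c + k * H + H := by ring
    rw [e, pow_succ]
    have := mul_le_mul_of_nonneg_left ih (by norm_num : (0 : ℝ) ≤ 3 / 5)
    linarith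

/-- from one tube to the next one -/
theorem corridor {l : Set (ℕ × ℤ)} {H H' c M : ℕ} (hH : 1 ≤ H) (hc : 1 ≤ c) (hM : 1 ≤ M) (hHH : H ≤ H')
    (htop : TopOK l H H' c) : ZG l H' false c M ≤ ZG l H false c M := by
  have h1 := gate_step (l := l) (m := 4) hH hc hc hM (Or.inr rfl) hHH (sub_ff hHH le_rfl) htop
    (by norm_num) (by norm_num)
  have hs : 0 < Real.sin (((4 + wg false : ℤ) : ℝ) * (Real.pi / 8)) := by
    obtain ⟨t1, t2, t3, t4⟩ := trig8
    have : Real.sin (((4 + wg false : ℤ) : ℝ) * (Real.pi / 8)) = Real.cos (Real.pi / 8) := by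
      rw [← t2]
      congr 1
      simp only [wg]
      simp
      ring
    rw [this]
    exact cos_pos
  exact le_of_mul_le_mul_left h1 hs

/-- weight of the bridges of height T, in the finite domain -/
noncomputable def ZT (l : Set (ℕ × ℤ)) (T C M : ℕ) : ℝ :=
  ZZ (DW l T false C M) oo up (fun t => dx up t t.length = up ∧ (tip oo up t).1 + 2 * (tip oo up t).2 = 3 * T + 2)

/-- the last step -/
theorem last {l : Set (ℕ × ℤ)} {H T c C M : ℕ} (hH : 1 ≤ H) (hc : 1 ≤ c) (hM : 1 ≤ M) (hHH : H < T) (hcC : c ≤ C)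
    (htop : TopOK l H T c) : ZT l T C M ≤ ZG l H false c M := by
  have h1 := compare (Ω := DW l H false c M) (Ω' := DW l T false C M) (v0 := oo) (d0 := up) (by decide) DW_half
    (by
      intro v hv
      rw [mem_DW] at hv ⊢
      exact ⟨sub_ff hHH.le hcC hv.1, hv.2⟩)
    (Pg H false c M) (fun t => dx up t t.length = up ∧ (tip oo up t).1 + 2 * (tip oo up t).2 = 3 * T + 2)
    (w := wg false) (w' := 0) ?_ (Pg_wind hH hc hM) ?_ (DW_wind (by omega) (by omega) hM) (m := 4)
    (by norm_num) (by norm_num)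
  · have e1 : Real.sin (((4 + 0 : ℤ) : ℝ) * (Real.pi / 8)) = 1 := by
      rw [← Real.sin_pi_div_two]
      congr 1
      push_cast
      ring
    rw [e1, one_mul] at h1
    have h2 : Real.sin (((4 + wg false : ℤ) : ℝ) * (Real.pi / 8)) ≤ 1 := Real.sin_le_one _
    have h3 := ZG_nonneg l H false c M
    unfold ZT
    refine h1.trans ?_
    show Real.sin (((4 + wg false : ℤ) : ℝ) * (Real.pi / 8)) * ZG l H false c M ≤ _
    nlinarith
  · intro t ht hP
    obtain ⟨h2, h3, h4⟩ := exits_sub (g' := false) hH hc hM (Or.inr rfl) hHH.le (sub_ff hHH.le hcC) htop ht hP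
    refine ⟨h2, ?_⟩
    rintro ⟨h5, h6⟩
    have hno : tip oo up t ∉ DD T false C M := by
      intro h
      have := h.2.2.1
      omega
    rcases (h4 hno).2 with h | h | h
    · rw [h5] at h
      exact absurd h (by decide)
    · have h7 := h.2
      have : (H : ℤ) < T := by exact_mod_cast hHH
      omega
    · rw [h5] at h
      exact absurd h (by decide)
  · rintro t ht ⟨h5, h6⟩
    rcases DW_exit (by omega : 1 ≤ T) (by omega : 1 ≤ C) hM ht with h | ⟨_, h | h | h | h⟩
    · exfalso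
      have := h.1.2.2.1
      omega
    · rw [h5] at h
      exact absurd h.1 (by decide)
    · exact h.2.2
    · rw [h5] at h
      exact absurd h.1 (by decide)
    · rw [h5] at h
      exact absurd h.1 (by decide)

/-- the walls one after the other -/
theorem chain {l : Set (ℕ × ℤ)} {M : ℕ} (hM : 1 ≤ M) (r : ℕ → ℕ) (w : ℕ → ℤ) (k : ℕ → ℕ) (c0 : ℕ) (hc0 : 1 ≤ c0)
    (m : ℕ) (hl : ∀ i, i ≤ m → (r i, w i) ∈ l) (hr : ∀ i, i ≤ m → 1 ≤ r i) (hmono : ∀ i, i < m → r i ≤ r (i + 1))
    (hw : ∀ i, i ≤ m → 2 * ((c0 + ∑ j ∈ Finset.range (i + 1), k j * r j : ℕ) : ℤ) - r i ≤ w i + 1) :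
    ZG l (r m) false (c0 + ∑ j ∈ Finset.range (m + 1), k j * r j) M ≤
      (3 / 5) ^ (∑ j ∈ Finset.range (m + 1), k j) * ZG l (r 0) false c0 M := by
  induction m with
  | zero =>
    have := periods l (hr 0 le_rfl) hc0 hM (k 0)
    simpa using this
  | succ m ih =>
    have h1 := ih (fun i hi => hl i (by omega)) (fun i hi => hr i (by omega)) (fun i hi => hmono i (by omega))
      (fun i hi => hw i (by omega))
    have h2 := corridor (l := l) (hr m (by omega)) (by omega : 1 ≤ c0 + ∑ j ∈ Finset.range (m + 1), k j * r j) hM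
      (hmono m (by omega)) (Or.inr ⟨w m, hl m (by omega), hw m (by omega)⟩)
    have h3 := periods l (hr (m + 1) le_rfl) (by omega : 1 ≤ c0 + ∑ j ∈ Finset.range (m + 1), k j * r j) hM (k (m + 1))
    rw [Finset.sum_range_succ (fun j => k j * r j) (m + 1), Finset.sum_range_succ k (m + 1), ← add_assoc, pow_add]
    have h4 : (0 : ℝ) ≤ (3 / 5) ^ k (m + 1) := by positivity
    have h5 := mul_le_mul_of_nonneg_left (h2.trans h1) h4
    linarith

end Wall

end HexObs
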